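import Pool.Agent.H87IV.Emb

set_option autoImplicit false

/-! Much nesting in a prime interval order gives a bull with isolated points. -/

namespace Pool.Agent.H87IV.FS

open Pool.Agent.H87IV Pool.Agent.W878.VC

variable {lt : ℕ → ℕ → Prop} {M : ℕ} {yy aa cc : ℕ → ℕ}

theorem Chn.rev (C : Chn lt M yy aa cc) : Chn (H87IV.rev lt) M yy cc aa :=
  ⟨fun i j hij hj => ⟨(C.y0 i j hij hj).1, (C.y0 i j hij hj).2.2, (C.y0 i j hij hj).2.1⟩,
    C.c1, C.c2, C.c3, C.a1, C.a2, C.a3, fun i j hi hj => C.ac j i hj hi⟩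

theorem prm_rev (h : Prm lt) : Prm (rev lt) :=
  fun X hX => h X fun u hu v hv w hw => ⟨(hX u hu v hv w hw).2, (hX u hu v hv w hw).1⟩

/-- `a < p < c`, `a < x`, `y < c`, and `p`, `x`, `y` are pairwise incomparable. -/
structure Bl (lt : ℕ → ℕ → Prop) (a c p x y : ℕ) : Prop where
  ap : lt a p
  pc : lt p c
  ax : lt a x
  xc : ¬ lt x c
  yc : lt y c
  ay : ¬ lt a y
  px : ¬ lt p x
  xp : ¬ lt x p
  py : ¬ lt p y
  yp : ¬ lt y p
  xy : ¬ lt x y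
  yx : ¬ lt y x

theorem Bl.rev {a c p x y : ℕ} (h : Bl lt a c p x y) : Bl (H87IV.rev lt) c a p y x :=
  ⟨h.pc, h.ap, h.yc, h.ay, h.ax, h.xc, h.yp, h.py, h.xp, h.px, h.xy, h.yx⟩

/-- incomparable to the first `k + 1` members of the chain -/
def Fr (lt : ℕ → ℕ → Prop) (yy : ℕ → ℕ) (k v : ℕ) : Prop :=
  ∀ j ≤ k, ¬ lt v (yy j) ∧ ¬ lt (yy j) v

theorem Fr.rev {k v : ℕ} (h : Fr lt yy k v) : Fr (H87IV.rev lt) yy k v :=
  fun j hj => ⟨(h j hj).2, (h j hj).1⟩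

/-- inside the interval of `Y` -/
def In (lt : ℕ → ℕ → Prop) (Y z : ℕ) : Prop := (∀ a, lt a Y → lt a z) ∧ ∀ c, lt Y c → lt z c

/-- crossing the left endpoint -/
def LC (lt : ℕ → ℕ → Prop) (Y w : ℕ) : Prop :=
  (∃ z, In lt Y z ∧ lt w z) ∧ (∃ z, In lt Y z ∧ ¬ lt w z ∧ ¬ lt z w) ∧ ¬ In lt Y w

theorem In.rev {Y z : ℕ} (h : In lt Y z) : In (H87IV.rev lt) Y z := ⟨h.2, h.1⟩

section one

variable (h : IvO lt)

include h

theorem tr {a b c : ℕ} (h1 : lt a b) (h2 : lt b c) : lt a c := by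
  rcases h.fer a b b c h1 h2 with k | k
  · exact k
  · exact absurd k (h.irr b)

theorem asy {a b : ℕ} (h1 : lt a b) (h2 : lt b a) : False := h.irr _ (tr h h1 h2)

theorem in_inc {Y z : ℕ} (hz : In lt Y z) : ¬ lt z Y ∧ ¬ lt Y z :=
  ⟨fun k => h.irr _ (hz.1 _ k), fun k => h.irr _ (hz.2 _ k)⟩

/-- convexity -/
theorem in_mid {Y z z' u : ℕ} (hz : In lt Y z) (hz' : In lt Y z') (h1 : lt z u) (h2 : lt u z') :
    In lt Y u :=
  ⟨fun a ha => tr h (hz.1 a ha) h1, fun c hc => tr h h2 (hz'.2 c hc)⟩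

theorem up1 (C : Chn lt M yy aa cc) {i j : ℕ} (hij : i ≤ j) (hj : j < M) {v : ℕ}
    (hv : lt v (yy i)) : lt v (yy j) := by
  rcases Nat.lt_or_ge i j with h1 | h1
  · rcases h.fer _ _ _ _ hv (C.a1 i j h1 hj) with k | k
    · exact k
    · exact absurd k (C.a2 i i le_rfl (by omega))
  · have e : i = j := le_antisymm hij h1
    rw [← e]
    exact hv

theorem up2 (C : Chn lt M yy aa cc) {i j : ℕ} (hij : i ≤ j) (hj : j < M) {v : ℕ}
    (hv : lt (yy i) v) : lt (yy j) v := by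
  have hr : IvO (rev lt) := h.rev
  exact up1 hr C.rev hij hj hv

theorem in_chain (C : Chn lt M yy aa cc) {i j : ℕ} (hij : i ≤ j) (hj : j < M) :
    In lt (yy i) (yy j) := ⟨fun _ ha => up1 h C hij hj ha, fun _ hc => up2 h C hij hj hc⟩

theorem fr_of (C : Chn lt M yy aa cc) {k v : ℕ} (hk : k + 1 < M) (h1 : ¬ lt v (yy (k + 1)))
    (h2 : ¬ lt (yy (k + 1)) v) : Fr lt yy k v :=
  fun _ hj => ⟨fun hh => h1 (up1 h C (by omega) hk hh), fun hh => h2 (up2 h C (by omega) hk hh)⟩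

theorem lc1 {Y w : ℕ} (hw : LC lt Y w) : ¬ lt w Y := by
  intro k
  obtain ⟨-, ⟨z, hz, h1, -⟩, -⟩ := hw
  exact h1 (hz.1 _ k)

theorem lc2 {Y w : ℕ} (hw : LC lt Y w) : ¬ lt Y w := by
  intro k
  obtain ⟨⟨z, hz, h1⟩, -, -⟩ := hw
  exact asy h h1 (hz.2 _ k)

theorem lc3 (C : Chn lt M yy aa cc) {k w : ℕ} (hk : k + 1 < M) (hw : LC lt (yy (k + 1)) w) :
    ∃ a, lt a (yy (k + 1)) ∧ ¬ lt a w ∧ Fr lt yy k a := by
  have key : ∀ a, lt a (yy (k + 1)) → ¬ lt a (yy k) → Fr lt yy k a := by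
    intro a h1 h2 j hj
    refine ⟨fun hh => h2 (up1 h C hj (by omega) hh), fun hh => ?_⟩
    exact asy h h1 (up2 h C (by omega) hk hh)
  have h3 : ∃ a, lt a (yy (k + 1)) ∧ ¬ lt a w := by
    by_contra hcon
    push Not at hcon
    refine hw.2.2 ⟨hcon, fun c hc => ?_⟩
    obtain ⟨⟨z, hz, h1⟩, -, -⟩ := hw
    exact tr h h1 (hz.2 c hc)
  obtain ⟨a, h4, h5⟩ := h3
  by_cases h6 : lt (aa k) w
  · refine ⟨a, h4, h5, key a h4 fun h7 => ?_⟩
    rcases h.fer _ _ _ _ h7 h6 with h8 | h8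
    · exact h5 h8
    · exact C.a2 k k le_rfl hk h8
  · exact ⟨aa k, C.a1 k (k + 1) (Nat.lt_succ_self k) hk, h6,
      key _ (C.a1 k (k + 1) (Nat.lt_succ_self k) hk) (C.a2 k k le_rfl hk)⟩

/-- a bull, from a left crossing element -/
theorem bull_left (hp : Prm lt) (C : Chn lt M yy aa cc) {k : ℕ} (hk : k + 3 < M)
    (hL : ∃ w, LC lt (yy (k + 1)) w) : ∃ a c p x y, Bl lt a c p x y ∧ Fr lt yy k a ∧
      Fr lt yy k c ∧ Fr lt yy k p ∧ Fr lt yy k x ∧ Fr lt yy k y := by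
  have hk1 : k + 1 < M := by omega
  have fr_in : ∀ z, In lt (yy (k + 1)) z → Fr lt yy k z := fun z hz =>
    fr_of h C hk1 (in_inc h hz).1 (in_inc h hz).2
  have hY : Fr lt yy k (yy (k + 1)) := fr_of h C hk1 (h.irr _) (h.irr _)
  have hZ : In lt (yy (k + 1)) (yy (k + 2)) := in_chain h C (by omega) (by omega)
  have hZ' : In lt (yy (k + 1)) (yy (k + 3)) := in_chain h C (by omega) (by omega)
  by_cases hA : ∃ w, LC lt (yy (k + 1)) w ∧ ¬ lt w (yy (k + 2))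
  · obtain ⟨w, hw, hwZ⟩ := hA
    obtain ⟨a, a1, a2, a3⟩ := lc3 h C hk1 hw
    have hw1 := lc1 h hw
    have hw2 := lc2 h hw
    have hZw : ¬ lt (yy (k + 2)) w := by
      intro h1
      obtain ⟨⟨z, hz, h2⟩, -, h3⟩ := hw
      exact h3 (in_mid h hZ hz h1 h2)
    have c1 : lt (yy (k + 2)) (cc (k + 1)) := C.c1 _ _ (by omega) (by omega)
    have c2 : ¬ lt (yy (k + 1)) (cc (k + 1)) := C.c2 _ _ le_rfl (by omega)
    by_cases hc : lt w (cc (k + 1))
    · refine ⟨a, cc (k + 1), yy (k + 2), yy (k + 1), w,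
        ⟨hZ.1 _ a1, c1, a1, c2, hc, a2, (in_inc h hZ).1, (in_inc h hZ).2, hZw, hwZ, hw2, hw1⟩,
        a3, ?_, fr_in _ hZ, hY, fr_of h C hk1 hw1 hw2⟩
      intro j hj
      exact ⟨C.c3 _ _ (by omega) (by omega), C.c2 _ _ (by omega) (by omega)⟩
    · obtain ⟨z, hz, h2⟩ := hw.1
      have h3 : lt (yy (k + 2)) z := by
        rcases h.fer _ _ _ _ c1 h2 with h3 | h3
        · exact h3
        · exact absurd h3 hc
      exact ⟨a, z, yy (k + 2), yy (k + 1), w,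
        ⟨hZ.1 _ a1, h3, a1, (in_inc h hz).2, h2, a2, (in_inc h hZ).1, (in_inc h hZ).2, hZw, hwZ,
          hw2, hw1⟩, a3, fr_in _ hz, fr_in _ hZ, hY, fr_of h C hk1 hw1 hw2⟩
  · push Not at hA
    have hT : ∀ w, LC lt (yy (k + 1)) w → lt w (yy (k + 3)) := fun w hw =>
      up1 h C (i := k + 2) (by omega) (by omega) (hA w hw)
    let T : Set ℕ := {z | In lt (yy (k + 1)) z ∧ ∀ w, LC lt (yy (k + 1)) w → lt w z}
    have hnm : ¬ Mdl lt T := by
      intro hm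
      rcases hp T hm with h1 | h1
      · have := h1 (show yy (k + 2) ∈ T from ⟨hZ, hA⟩) (show yy (k + 3) ∈ T from ⟨hZ', hT⟩)
        exact (C.y0 (k + 2) (k + 3) (by omega) (by omega)).1 this
      · have : yy k ∈ T := by rw [h1]; exact Set.mem_univ _
        exact C.a2 k k le_rfl hk1 (this.1.1 _ (C.a1 k (k + 1) (Nat.lt_succ_self k) hk1))
    have hex : ∃ u z z', u ∉ T ∧ z ∈ T ∧ z' ∈ T ∧
        ((lt u z ∧ ¬ lt u z') ∨ (lt z u ∧ ¬ lt z' u)) := by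
      by_contra hcon
      push Not at hcon
      apply hnm
      intro z hz z' hz' u hu
      have k1 := hcon u z z' hu hz hz'
      have k2 := hcon u z' z hu hz' hz
      exact ⟨⟨k1.2, k2.2⟩, ⟨k1.1, k2.1⟩⟩
    obtain ⟨u, z, z', huT, hz, hz', hd⟩ := hex
    rcases hd with ⟨h1, h2⟩ | ⟨h1, h2⟩
    · -- left
      have h3 : ¬ lt z' u := fun h3 => huT ⟨in_mid h hz'.1 hz.1 h3 h1,
        fun w hw => tr h (hz'.2 w hw) h3⟩
      by_cases hu : In lt (yy (k + 1)) u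
      · have : ∃ w, LC lt (yy (k + 1)) w ∧ ¬ lt w u := by
          by_contra hcon
          push Not at hcon
          exact huT ⟨hu, hcon⟩
        obtain ⟨w, hw, hwu⟩ := this
        obtain ⟨a, a1, a2, a3⟩ := lc3 h C hk1 hw
        have huw : ¬ lt u w := by
          intro h4
          obtain ⟨⟨z0, hz0, h5⟩, -, h6⟩ := hw
          exact h6 (in_mid h hu hz0 h4 h5)
        have hw1 := lc1 h hw
        have hw2 := lc2 h hw
        exact ⟨a, z, u, yy (k + 1), w,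
          ⟨hu.1 _ a1, h1, a1, (in_inc h hz.1).2, hz.2 w hw, a2, (in_inc h hu).1, (in_inc h hu).2,
            huw, hwu, hw2, hw1⟩, a3, fr_in _ hz.1, fr_in _ hu, hY, fr_of h C hk1 hw1 hw2⟩
      · have : LC lt (yy (k + 1)) u := ⟨⟨z, hz.1, h1⟩, ⟨z', hz'.1, h2, h3⟩, hu⟩
        exact absurd (hz'.2 u this) h2
    · -- right
      have h3 : ¬ lt u z' := fun h3 => huT ⟨in_mid h hz.1 hz'.1 h1 h3,
        fun w hw => tr h (hz.2 w hw) h1⟩
      have hu : ¬ In lt (yy (k + 1)) u := fun hu => huT ⟨hu, fun w hw => tr h (hz.2 w hw) h1⟩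
      have hLr : LC (rev lt) (yy (k + 1)) u :=
        ⟨⟨z, hz.1.rev, h1⟩, ⟨z', hz'.1.rev, h2, h3⟩, fun hh => hu ⟨hh.2, hh.1⟩⟩
      obtain ⟨c, c1, c2, c3⟩ := lc3 h.rev C.rev hk1 hLr
      have u1 : ¬ lt (yy (k + 1)) u := lc1 h.rev hLr
      have u2 : ¬ lt u (yy (k + 1)) := lc2 h.rev hLr
      obtain ⟨w, hw⟩ := hL
      have hw1 := lc1 h hw
      have hw2 := lc2 h hw
      exact ⟨w, c, z', u, yy (k + 1),
        ⟨hz'.2 w hw, hz'.1.2 _ c1, tr h (hz.2 w hw) h1, c2, c1, hw1, h2, h3, (in_inc h hz'.1).1,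
          (in_inc h hz'.1).2, u2, u1⟩, fr_of h C hk1 hw1 hw2, c3.rev, fr_in _ hz'.1,
        fr_of h C hk1 u2 u1, hY⟩

/-- a bull -/
theorem bull (hp : Prm lt) (C : Chn lt M yy aa cc) {k : ℕ} (hk : k + 3 < M) :
    ∃ a c p x y, Bl lt a c p x y ∧ Fr lt yy k a ∧
      Fr lt yy k c ∧ Fr lt yy k p ∧ Fr lt yy k x ∧ Fr lt yy k y := by
  have hk1 : k + 1 < M := by omega
  by_cases hL : ∃ w, LC lt (yy (k + 1)) w
  · exact bull_left h hp C hk hL
  by_cases hR : ∃ w, LC (rev lt) (yy (k + 1)) w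
  · obtain ⟨a, c, p, x, y, h1, h2, h3, h4, h5, h6⟩ := bull_left h.rev (prm_rev hp) C.rev hk hR
    exact ⟨c, a, p, y, x, h1.rev, h3.rev, h2.rev, h4.rev, h6.rev, h5.rev⟩
  exfalso
  have hZ : In lt (yy (k + 1)) (yy (k + 2)) := in_chain h C (by omega) (by omega)
  have hZ' : In lt (yy (k + 1)) (yy (k + 3)) := in_chain h C (by omega) (by omega)
  have hm : Mdl lt {z | In lt (yy (k + 1)) z} := by
    have key : ∀ z z' u, In lt (yy (k + 1)) z → In lt (yy (k + 1)) z' → ¬ In lt (yy (k + 1)) u →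
        lt u z → lt u z' := by
      intro z z' u hz hz' hu h1
      by_contra h2
      refine hL ⟨u, ⟨z, hz, h1⟩, ⟨z', hz', h2, fun h3 => hu (in_mid h hz' hz h3 h1)⟩, hu⟩
    have key' : ∀ z z' u, In lt (yy (k + 1)) z → In lt (yy (k + 1)) z' → ¬ In lt (yy (k + 1)) u →
        lt z u → lt z' u := by
      intro z z' u hz hz' hu h1
      by_contra h2
      refine hR ⟨u, ⟨z, hz.rev, h1⟩, ⟨z', hz'.rev, h2, fun h3 => hu (in_mid h hz hz' h1 h3)⟩,
        fun hh => hu ⟨hh.2, hh.1⟩⟩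
    intro z hz z' hz' u hu
    exact ⟨⟨key' z z' u hz hz' hu, key' z' z u hz' hz hu⟩,
      ⟨key z z' u hz hz' hu, key z' z u hz' hz hu⟩⟩
  rcases hp _ hm with h1 | h1
  · exact (C.y0 (k + 2) (k + 3) (by omega) (by omega)).1 (h1 hZ hZ')
  · have : yy k ∈ {z | In lt (yy (k + 1)) z} := by rw [h1]; exact Set.mem_univ _
    exact C.a2 k k le_rfl hk1 (this.1 _ (C.a1 k (k + 1) (Nat.lt_succ_self k) hk1))

end one

/-- the order on the kinds of elements -/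
def RR : Fin 5 ⊕ ℕ → Fin 5 ⊕ ℕ → Prop
  | Sum.inl i, Sum.inl j => (i = 0 ∧ (j = 1 ∨ j = 2 ∨ j = 3)) ∨ (j = 1 ∧ (i = 2 ∨ i = 4))
  | _, _ => False

theorem bl_emb (h : IvO lt) (C : Chn lt M yy aa cc) {k : ℕ} (hk : k < M) {a c p x y : ℕ}
    (hb : Bl lt a c p x y) (ha : Fr lt yy k a) (hc : Fr lt yy k c) (hp : Fr lt yy k p)
    (hx : Fr lt yy k x) (hy : Fr lt yy k y) :
    ∃ F : Fin 5 ⊕ ℕ → ℕ, (∀ i j, F (Sum.inl i) = F (Sum.inl j) → i = j) ∧
      (∀ i, ∀ j ≤ k, F (Sum.inl i) ≠ F (Sum.inr j)) ∧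
      (∀ i ≤ k, ∀ j ≤ k, F (Sum.inr i) = F (Sum.inr j) → i = j) ∧
      (∀ i j, lt (F (Sum.inl i)) (F (Sum.inl j)) ↔ RR (Sum.inl i) (Sum.inl j)) ∧
      (∀ i, ∀ j ≤ k, ¬ lt (F (Sum.inl i)) (F (Sum.inr j)) ∧ ¬ lt (F (Sum.inr j)) (F (Sum.inl i))) ∧
      (∀ i ≤ k, ∀ j ≤ k, ¬ lt (F (Sum.inr i)) (F (Sum.inr j))) := by
  have hac : lt a c := tr h hb.ap hb.pc
  have hfr : ∀ v, Fr lt yy k v → (∃ w, lt v w ∨ lt w v) → True := fun _ _ _ => trivial
  have rel : ∀ i j : Fin 5, lt (![a, c, p, x, y] i) (![a, c, p, x, y] j) ↔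
      RR (Sum.inl i) (Sum.inl j) := by
    have n1 : ¬ lt c a := fun k => asy h hac k
    have n2 : ¬ lt c p := fun k => asy h hb.pc k
    have n3 : ¬ lt c x := fun k => hb.px (tr h hb.pc k)
    have n4 : ¬ lt c y := fun k => asy h hb.yc k
    have n5 : ¬ lt p a := fun k => asy h hb.ap k
    have n6 : ¬ lt x a := fun k => asy h hb.ax k
    have n7 : ¬ lt y a := fun k => hb.yp (tr h k hb.ap)
    have i1 := h.irr
    have := hb
    intro i j
    fin_cases i <;> fin_cases j <;>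
      simp [RR, hac, n1, n2, n3, n4, n5, n6, n7, i1, hb.ap, hb.pc, hb.ax, hb.xc, hb.yc, hb.ay,
        hb.px, hb.xp, hb.py, hb.yp, hb.xy, hb.yx]
  have inj : ∀ i j : Fin 5, ![a, c, p, x, y] i = ![a, c, p, x, y] j → i = j := by
    intro i j hij
    -- the relations determine the kind
    have e1 : ∀ l : Fin 5, RR (Sum.inl i) (Sum.inl l) ↔ RR (Sum.inl j) (Sum.inl l) := by
      intro l
      rw [← rel, ← rel, hij]
    have e2 : ∀ l : Fin 5, RR (Sum.inl l) (Sum.inl i) ↔ RR (Sum.inl l) (Sum.inl j) := by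
      intro l
      rw [← rel, ← rel, hij]
    revert e1 e2
    clear hij
    fin_cases i <;> fin_cases j <;> simp [RR, Fin.forall_fin_succ]
  have fr : ∀ i : Fin 5, Fr lt yy k (![a, c, p, x, y] i) := by
    intro i
    fin_cases i
    · exact ha
    · exact hc
    · exact hp
    · exact hx
    · exact hy
  have cmp : ∀ i : Fin 5, ∃ j : Fin 5, lt (![a, c, p, x, y] i) (![a, c, p, x, y] j) ∨
      lt (![a, c, p, x, y] j) (![a, c, p, x, y] i) := by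
    intro i
    fin_cases i
    · exact ⟨1, Or.inl hac⟩
    · exact ⟨0, Or.inr hac⟩
    · exact ⟨0, Or.inr hb.ap⟩
    · exact ⟨0, Or.inr hb.ax⟩
    · exact ⟨1, Or.inl hb.yc⟩
  refine ⟨Sum.elim ![a, c, p, x, y] yy, ?_, ?_, ?_, ?_, ?_, ?_⟩
  · intro i j hij
    exact inj i j hij
  · intro i j hj hij
    obtain ⟨l, hl⟩ := cmp i
    have hij' : ![a, c, p, x, y] i = yy j := hij
    rw [hij'] at hl
    rcases hl with hl | hl
    · exact (fr l j hj).2 hl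
    · exact (fr l j hj).1 hl
  · intro i hi j hj hij
    rcases lt_trichotomy i j with k' | k' | k'
    · exact absurd hij (C.y0 i j k' (by omega)).1
    · exact k'
    · exact absurd hij.symm (C.y0 j i k' (by omega)).1
  · intro i j
    exact rel i j
  · intro i j hj
    exact fr i j hj
  · intro i hi j hj
    rcases lt_trichotomy i j with k' | k' | k'
    · exact (C.y0 i j k' (by omega)).2.1
    · rw [k']
      exact h.irr _
    · exact (C.y0 j i k' (by omega)).2.2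

/-- the order `a < p < c`, `a < x`, `y < c` with isolated points (`a = 0`, `c = 1`, `p = 2`, `x = 3`,
`y = 4`) -/
def BB (m n : ℕ) : Prop := (m = 0 ∧ (n = 1 ∨ n = 2 ∨ n = 3)) ∨ (n = 1 ∧ (m = 2 ∨ m = 4))

theorem BB_lt {m n : ℕ} (h : BB m n) : m < 5 ∧ n < 5 := by
  rcases h with ⟨rfl, rfl | rfl | rfl⟩ | ⟨rfl, rfl | rfl⟩ <;> omega

theorem BB_RR (i j : ℕ) (hi : i < 5) (hj : j < 5) :
    BB i j ↔ RR (Sum.inl ⟨i, hi⟩) (Sum.inl ⟨j, hj⟩) := by
  simp [BB, RR, Fin.ext_iff]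

theorem emb_of_bull {n : ℕ} {H : Fin n → Fin n → Prop} (hH : Emb H BB) (h : IvO lt) (hp : Prm lt)
    (hM : Nst lt (n + 4)) : Emb H lt := by
  classical
  obtain ⟨f, hf1, hf2⟩ := hH
  obtain ⟨yy, aa, cc, C⟩ := chn_of h hM (by omega)
  obtain ⟨a', c', p, x, y, hb, f1, f2, f3, f4, f5⟩ := bull h hp C (k := n) (by omega)
  obtain ⟨F, F1, F2, F3, F4, F5, F6⟩ := bl_emb h C (k := n) (by omega) hb f1 f2 f3 f4 f5
  let kd : Fin n → Fin 5 ⊕ ℕ := fun u => if hu : f u < 5 then Sum.inl ⟨f u, hu⟩ else Sum.inr u.val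
  have k1 : ∀ u (hu : f u < 5), kd u = Sum.inl ⟨f u, hu⟩ := fun u hu => dif_pos hu
  have k2 : ∀ u, ¬ f u < 5 → kd u = Sum.inr u.val := fun u hu => dif_neg hu
  refine ⟨fun u => F (kd u), ?_, ?_⟩
  · intro u v huv
    have huv' : F (kd u) = F (kd v) := huv
    by_cases hu : f u < 5 <;> by_cases hv : f v < 5
    · rw [k1 u hu, k1 v hv] at huv'
      have := F1 _ _ huv'
      rw [Fin.mk.injEq] at this
      exact hf1 this
    · rw [k1 u hu, k2 v hv] at huv'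
      exact absurd huv' (F2 _ _ v.isLt.le)
    · rw [k2 u hu, k1 v hv] at huv'
      exact absurd huv'.symm (F2 _ _ u.isLt.le)
    · rw [k2 u hu, k2 v hv] at huv'
      exact Fin.ext (F3 _ u.isLt.le _ v.isLt.le huv')
  · intro u v
    rw [← hf2]
    show lt (F (kd u)) (F (kd v)) ↔ _
    by_cases hu : f u < 5 <;> by_cases hv : f v < 5
    · rw [k1 u hu, k1 v hv, F4, BB_RR _ _ hu hv]
    · rw [k1 u hu, k2 v hv]
      exact iff_of_false (F5 _ _ v.isLt.le).1 fun k => hv (BB_lt k).2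
    · rw [k2 u hu, k1 v hv]
      exact iff_of_false (F5 _ _ u.isLt.le).2 fun k => hu (BB_lt k).1
    · rw [k2 u hu, k2 v hv]
      exact iff_of_false (F6 _ u.isLt.le _ v.isLt.le) fun k => hv (BB_lt k).2

/-- the positive cases -/
def Pos {n : ℕ} (H : Fin n → Fin n → Prop) : Prop :=
  (Slim H ∧ ¬ ∃ p q r s, H p q ∧ H p r ∧ H s r ∧ ¬ H s q ∧ ¬ H q r ∧ ¬ H r q ∧ ¬ H p s ∧ ¬ H s p) ∨
    Emb H BB

theorem not_nst {n : ℕ} {H : Fin n → Fin n → Prop} (hH : Pos H) (h : IvO lt) (hp : Prm lt)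
    (hE : ¬ Emb H lt) : ¬ Nst lt (3 * n + 4) := by
  intro hN
  have mono : ∀ k, k ≤ 3 * n + 4 → Nst lt k := by
    intro k hk
    obtain ⟨a, ha⟩ := hN
    exact ⟨fun i => a (Fin.castLE hk i), fun i j hij => ha _ _ (by simpa using hij)⟩
  rcases hH with ⟨h1, h2⟩ | h1
  · exact hE (emb_of_slim h1 h2 h (mono _ (by omega)))
  · exact hE (emb_of_bull h1 h hp (mono _ (by omega)))

/-- the dichotomy for relations whose infinite prime parts are `H`-free interval orders -/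
theorem dich_pos {n : ℕ} {H : Fin n → Fin n → Prop} (hH : Pos H) (B : Set S1)
    (hB : MeasurableSet B) (hi : ∀ x ∈ B, ∀ σ, a1 σ x ∈ B)
    (h : ∀ x ∈ B, Par (fun r => IvO r ∧ ¬ Emb H r) fun u v => x.1 u v = true) :
    Pool.Agent.W878.VC.Dicho a1 B := by
  refine dich_orders B hB hi fun x hx => ⟨(h x hx).irr, fun e he hp => ?_⟩
  obtain ⟨h1, h2⟩ := (h x hx).prm e he hp
  exact ⟨h1, pcs_of h1 (tf_of_prm h1 hp) (not_nst hH h1 hp h2)⟩

end Pool.Agent.H87IV.FS
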