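import Pool.Agent.H87IV.Cod

set_option autoImplicit false

/-! Classes of orders and graphs whose infinite prime parts are interval orders, respectively
interval graphs, without deep nesting. -/

namespace Pool.Agent.H87IV

open Set MeasureTheory Relation
open Pool.Agent.W878.VC
open Pool.Agent.H533R2.VO (RS)
open Pool.Agent.H533R2.VS (VCu US UIso UDich)

/-! ### the forcing relation -/

/-- chains of steps -/
def FcN (A : ℕ → ℕ → Prop) : ℕ → ℕ × ℕ → ℕ × ℕ → Prop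
  | 0, p, q => p = q
  | n + 1, p, q => ∃ r, FcN A n p r ∧ Stp A r q

theorem fc_iff {A : ℕ → ℕ → Prop} {p q : ℕ × ℕ} : Fc A p q ↔ ∃ n, FcN A n p q := by
  constructor
  · intro h
    induction h with
    | refl => exact ⟨0, rfl⟩
    | tail _ h ih =>
      obtain ⟨n, hn⟩ := ih
      exact ⟨n + 1, _, hn, h⟩
  · rintro ⟨n, h⟩
    induction n generalizing q with
    | zero =>
      obtain rfl : p = q := h
      exact ReflTransGen.refl
    | succ n ih =>
      obtain ⟨r, h1, h2⟩ := h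
      exact ReflTransGen.tail (ih h1) h2

section
variable {α : Type} [MeasurableSpace α] {Q : α → ℕ → ℕ → Prop}

theorem stp_meas (h : ∀ u v, MeasurableSet {x | Q x u v}) (p q : ℕ × ℕ) :
    MeasurableSet {x | Stp (Q x) p q} := by
  refine MeasurableSet.union ?_ ?_
  · exact (MeasurableSet.const _).inter ((h q.1 q.2).inter (h p.2 q.2).compl)
  · exact (MeasurableSet.const _).inter ((h q.1 q.2).inter (h p.1 q.1).compl)

theorem fcN_meas (h : ∀ u v, MeasurableSet {x | Q x u v}) {p : α → ℕ × ℕ} (hp : Measurable p)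
    (n : ℕ) (q : ℕ × ℕ) : MeasurableSet {x | FcN (Q x) n (p x) q} := by
  induction n generalizing q with
  | zero => exact hp (measurableSet_singleton q)
  | succ n ih =>
    have e : {x | FcN (Q x) (n + 1) (p x) q} =
        ⋃ r, ({x | FcN (Q x) n (p x) r} ∩ {x | Stp (Q x) r q}) := by
      ext x
      simp only [mem_iUnion]
      rfl
    rw [e]
    exact MeasurableSet.iUnion fun r => (ih r).inter (stp_meas h r q)

theorem fc_meas (h : ∀ u v, MeasurableSet {x | Q x u v}) {p : α → ℕ × ℕ} (hp : Measurable p)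
    (q : ℕ × ℕ) : MeasurableSet {x | Fc (Q x) (p x) q} := by
  have e : {x | Fc (Q x) (p x) q} = ⋃ n, {x | FcN (Q x) n (p x) q} := by
    ext x
    simp only [mem_iUnion]
    exact fc_iff
  rw [e]
  exact MeasurableSet.iUnion fun n => fcN_meas h hp n q

end

theorem stp_map {A A' : ℕ → ℕ → Prop} {s : ℕ → ℕ} (hs : ∀ u v, A' (s u) (s v) ↔ A u v)
    {p q : ℕ × ℕ} (h : Stp A p q) : Stp A' (s p.1, s p.2) (s q.1, s q.2) := by
  rcases h with ⟨h1, h2, h3⟩ | ⟨h1, h2, h3⟩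
  · exact Or.inl ⟨congrArg s h1, (hs _ _).2 h2, fun h => h3 ((hs _ _).1 h)⟩
  · exact Or.inr ⟨congrArg s h1, (hs _ _).2 h2, fun h => h3 ((hs _ _).1 h)⟩

theorem fc_map {A A' : ℕ → ℕ → Prop} {s : ℕ → ℕ} (hs : ∀ u v, A' (s u) (s v) ↔ A u v)
    {p q : ℕ × ℕ} (h : Fc A p q) : Fc A' (s p.1, s p.2) (s q.1, s q.2) := by
  induction h with
  | refl => exact ReflTransGen.refl
  | tail _ h ih => exact ReflTransGen.tail ih (stp_map hs h)

/-! ### orders -/

/-- interval orders with pieces -/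
structure SO (lt : ℕ → ℕ → Prop) : Prop where
  io : IvO lt
  pcs : Pcs lt

theorem SO.rev {lt : ℕ → ℕ → Prop} (h : SO lt) : SO (rev lt) := ⟨h.io.rev, pcs_rev h.pcs⟩

/-- prime shallow interval orders -/
def WO (x : RS a2) : Prop := (∀ i, i ≠ 0 → ∀ u v, ¬ rl x i u v) ∧ Prm (rl x 0) ∧ SO (rl x 0)

theorem vcu_WO : VCu WO := by
  refine main (k := 0) (fun x _ => rl x 0) ?_ (fun _ _ => True) MeasurableSet.univ ?_
    (fun _ _ _ _ => trivial) (fun _ _ => ⟨fun i => i.elim0, trivial⟩) ?_ ?_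
  · intro u v
    have h1 : Continuous fun q : RS a2 × (Fin 0 → ℕ) => q.1 0 ![u, v] :=
      (continuous_apply _).comp ((continuous_apply 0).comp continuous_fst)
    exact (isClosed_eq h1 continuous_const).measurableSet
  · intro σ x p
    funext u v
    refine propext ?_
    have h := rl_act σ x 0 (σ⁻¹ u) (σ⁻¹ v)
    rw [show σ (σ⁻¹ u) = u from σ.apply_symm_apply u,
      show σ (σ⁻¹ v) = v from σ.apply_symm_apply v] at h
    exact h
  · intro x y p hx hy _ _ he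
    refine rl_ext fun i u v => ?_
    by_cases hi : i = 0
    · subst hi
      exact iff_of_eq (congrFun (congrFun he u) v)
    · exact ⟨fun h => absurd h (hx.1 i hi u v), fun h => absurd h (hy.1 i hi u v)⟩
  · intro x p hx _
    exact ⟨hx.2.2.io, tf_of_prm hx.2.2.io hx.2.1, hx.2.2.pcs⟩

/-! ### graphs -/

/-- the complement -/
def cpl (A : ℕ → ℕ → Prop) (u v : ℕ) : Prop := u ≠ v ∧ ¬ A u v

/-- incomparability graphs of shallow interval orders -/
def GG (A : ℕ → ℕ → Prop) : Prop :=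
  ∃ lt, SO lt ∧ ∀ u v, A u v ↔ u ≠ v ∧ ¬ lt u v ∧ ¬ lt v u

theorem cpl_eq {A lt : ℕ → ℕ → Prop} (h1 : SO lt) (h2 : ∀ u v, A u v ↔ u ≠ v ∧ ¬ lt u v ∧ ¬ lt v u) :
    cpl A = Cmp lt := by
  funext u v
  refine propext ?_
  unfold cpl Cmp
  rw [h2]
  constructor
  · rintro ⟨h3, h4⟩
    by_contra h5
    rw [not_or] at h5
    exact h4 ⟨h3, h5⟩
  · intro h3
    refine ⟨?_, fun h4 => h3.elim h4.2.1 h4.2.2⟩
    rintro rfl
    exact h1.io.irr u (h3.elim id id)

theorem prm_cpl {A : ℕ → ℕ → Prop} (h : Prm A) : Prm (cpl A) := by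
  intro X hX
  refine h X fun u hu v hv w hw => ?_
  have hu' : u ≠ w := fun e => hw (e ▸ hu)
  have hv' : v ≠ w := fun e => hw (e ▸ hv)
  obtain ⟨h1, h2⟩ := hX u hu v hv w hw
  unfold cpl at h1 h2
  constructor
  · by_contra h3
    apply h3
    constructor
    · intro h4
      by_contra h5
      exact (h1.2 ⟨hv', h5⟩).2 h4
    · intro h4
      by_contra h5
      exact (h1.1 ⟨hu', h5⟩).2 h4
  · constructor
    · intro h4
      by_contra h5
      exact (h2.2 ⟨hv'.symm, h5⟩).2 h4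
    · intro h4
      by_contra h5
      exact (h2.1 ⟨hu'.symm, h5⟩).2 h4

theorem prm_of_cmp {lt : ℕ → ℕ → Prop} (h : Prm (Cmp lt)) : Prm lt := by
  intro X hX
  refine h X fun u hu v hv w hw => ?_
  obtain ⟨h1, h2⟩ := hX u hu v hv w hw
  exact ⟨or_congr h1 h2, or_congr h2 h1⟩

/-- the orientation given by a pair -/
def OG (A : ℕ → ℕ → Prop) (a b u v : ℕ) : Prop := Fc (cpl A) (a, b) (u, v)

theorem og_eq {lt : ℕ → ℕ → Prop} (h : SO lt) (hp : Prm (Cmp lt)) {a b : ℕ} (hab : lt a b)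
    (u v : ℕ) : Fc (Cmp lt) (a, b) (u, v) ↔ lt u v := by
  rw [orient (gr_cmp h.io.spo) hp (E := lt) (fun _ _ h => Or.inl h)
    (fun _ _ h1 h2 => h.io.spo.asymm h1 h2) (forc h.io.spo) hab u v]
  exact ⟨fun h1 => ⟨Fc.adj h1 (Or.inl hab), h1⟩, fun h1 => h1.2⟩

theorem og_main {A : ℕ → ℕ → Prop} (hA : GG A) (hP : Prm A) {a b : ℕ} (hab : cpl A a b) :
    SO (OG A a b) ∧ Prm (OG A a b) ∧ ∀ u v, A u v ↔ u ≠ v ∧ ¬ OG A a b u v ∧ ¬ OG A a b v u := by
  obtain ⟨lt, h1, h2⟩ := hA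
  have hc := cpl_eq h1 h2
  have hP' := prm_cpl hP
  rw [hc] at hP' hab
  rcases hab with hab | hab
  · have e : OG A a b = lt := by
      funext u v
      unfold OG
      rw [hc]
      exact propext (og_eq h1 hP' hab u v)
    rw [e]
    exact ⟨h1, prm_of_cmp hP', h2⟩
  · have hcr : Cmp lt = Cmp (rev lt) := by
      funext u v
      exact propext or_comm
    have e : OG A a b = rev lt := by
      funext u v
      unfold OG
      rw [hc, hcr]
      rw [hcr] at hP'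
      exact propext (og_eq h1.rev hP' hab u v)
    rw [e]
    refine ⟨h1.rev, prm_of_cmp (by rwa [← hcr]), fun u v => ?_⟩
    rw [h2]
    unfold rev
    rw [and_comm (a := ¬ lt v u)]

/-- prime interval graphs without deep nesting -/
def WG (x : RS a2) : Prop := (∀ i, i ≠ 0 → ∀ u v, ¬ rl x i u v) ∧ Prm (rl x 0) ∧ GG (rl x 0)

theorem ex_cpl {A : ℕ → ℕ → Prop} (hP : Prm A) : ∃ u v, cpl A u v := ex_lt (prm_cpl hP)

theorem rl_act' (σ : Equiv.Perm ℕ) (x : RS a2) (i u v : ℕ) :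
    rl (aR σ x) i u v ↔ rl x i (σ⁻¹ u) (σ⁻¹ v) := by
  have h := rl_act σ x i (σ⁻¹ u) (σ⁻¹ v)
  rw [show σ (σ⁻¹ u) = u from σ.apply_symm_apply u,
    show σ (σ⁻¹ v) = v from σ.apply_symm_apply v] at h
  exact h

theorem cpl_act (σ : Equiv.Perm ℕ) (x : RS a2) (u v : ℕ) :
    cpl (rl (aR σ x) 0) (σ u) (σ v) ↔ cpl (rl x 0) u v := by
  unfold cpl
  rw [rl_act, σ.injective.ne_iff]

theorem vcu_WG : VCu WG := by
  have hm : ∀ u v, MeasurableSet {q : RS a2 × (Fin 2 → ℕ) | rl q.1 0 u v} := by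
    intro u v
    have h1 : Continuous fun q : RS a2 × (Fin 2 → ℕ) => q.1 0 ![u, v] :=
      (continuous_apply _).comp ((continuous_apply 0).comp continuous_fst)
    exact (isClosed_eq h1 continuous_const).measurableSet
  have hc : ∀ u v, MeasurableSet {q : RS a2 × (Fin 2 → ℕ) | cpl (rl q.1 0) u v} := fun u v =>
    (MeasurableSet.const _).inter (hm u v).compl
  refine main (k := 2) (fun x p => OG (rl x 0) (p 0) (p 1)) ?_
    (fun x p => cpl (rl x 0) (p 0) (p 1)) ?_ ?_ ?_ ?_ ?_ ?_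
  · intro u v
    refine fc_meas (Q := fun q : RS a2 × (Fin 2 → ℕ) => cpl (rl q.1 0)) hc
      (p := fun q : RS a2 × (Fin 2 → ℕ) => (q.2 0, q.2 1)) ?_ (u, v)
    exact ((measurable_pi_apply 0).comp measurable_snd).prodMk
      ((measurable_pi_apply 1).comp measurable_snd)
  · have e : {q : RS a2 × (Fin 2 → ℕ) | cpl (rl q.1 0) (q.2 0) (q.2 1)} =
        {q | q.2 0 ≠ q.2 1} ∩ {q | rl q.1 0 (q.2 0) (q.2 1)}ᶜ := rfl
    rw [e]
    refine MeasurableSet.inter ?_ (rl_meas 0 0 1).compl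
    have h1 : Measurable fun q : RS a2 × (Fin 2 → ℕ) => (q.2 0, q.2 1) :=
      ((measurable_pi_apply 0).comp measurable_snd).prodMk
        ((measurable_pi_apply 1).comp measurable_snd)
    exact h1 (measurableSet_eq_fun measurable_fst measurable_snd).compl
  · intro σ x p
    funext u v
    refine propext ?_
    unfold OG rb
    constructor
    · intro h
      have h1 := fc_map (A := cpl (rl (aR σ x) 0)) (A' := cpl (rl x 0)) (s := ⇑σ⁻¹) (fun u v => by
        rw [← cpl_act σ, show σ (σ⁻¹ u) = u from σ.apply_symm_apply u,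
          show σ (σ⁻¹ v) = v from σ.apply_symm_apply v]) h
      simp only [Function.comp] at h1
      rw [show σ⁻¹ (σ (p 0)) = p 0 from σ.symm_apply_apply _,
        show σ⁻¹ (σ (p 1)) = p 1 from σ.symm_apply_apply _] at h1
      exact h1
    · intro h
      have h1 := fc_map (A := cpl (rl x 0)) (A' := cpl (rl (aR σ x) 0)) (s := ⇑σ)
        (fun u v => cpl_act σ x u v) h
      simp only at h1
      rw [show σ (σ⁻¹ u) = u from σ.apply_symm_apply u,
        show σ (σ⁻¹ v) = v from σ.apply_symm_apply v] at h1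
      exact h1
  · intro x p σ h
    exact (cpl_act σ x _ _).2 h
  · intro x hx
    obtain ⟨u, v, h⟩ := ex_cpl hx.2.1
    exact ⟨![u, v], h⟩
  · intro x y p hx hy h1 h2 he
    refine rl_ext fun i u v => ?_
    by_cases hi : i = 0
    · subst hi
      obtain ⟨-, -, k1⟩ := og_main hx.2.2 hx.2.1 h1
      obtain ⟨-, -, k2⟩ := og_main hy.2.2 hy.2.1 h2
      rw [k1, k2]
      have he' : OG (rl x 0) (p 0) (p 1) = OG (rl y 0) (p 0) (p 1) := he
      rw [he']
    · exact ⟨fun h => absurd h (hx.1 i hi u v), fun h => absurd h (hy.1 i hi u v)⟩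
  · intro x p hx hp
    obtain ⟨k1, k2, -⟩ := og_main hx.2.2 hx.2.1 hp
    exact ⟨k1.io, tf_of_prm k1.io k2, k1.pcs⟩

/-! ### structures all of whose infinite prime parts are in these classes -/

/-- one relation with prime parts in `K` -/
structure Par (K : (ℕ → ℕ → Prop) → Prop) (r : ℕ → ℕ → Prop) : Prop where
  irr : ∀ u, ¬ r u u
  prm : ∀ e : ℕ → ℕ, Function.Injective e → Prm (fun u v => r (e u) (e v)) →
    K (fun u v => r (e u) (e v))

theorem rs_one (r : Fin 1 → ℕ → ℕ → Bool) (u v : ℕ) : rs r 0 u v ↔ r 0 u v = true :=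
  ⟨fun ⟨_, h⟩ => h, fun h => ⟨Nat.one_pos, h⟩⟩

theorem rs_ge {m : ℕ} (r : Fin m → ℕ → ℕ → Bool) {i : ℕ} (hi : m ≤ i) (u v : ℕ) :
    ¬ rs r i u v := fun ⟨h, _⟩ => absurd h (by omega)

theorem mdl_triv {A : ℕ → ℕ → Prop} (h : ∀ u v, ¬ A u v) (X : Set ℕ) : Mdl A X :=
  fun _ _ _ _ _ _ => ⟨iff_of_false (h _ _) (h _ _), iff_of_false (h _ _) (h _ _)⟩

theorem vs_par {K : (ℕ → ℕ → Prop) → Prop}
    (hK : VCu (fun x : RS a2 => (∀ i, i ≠ 0 → ∀ u v, ¬ rl x i u v) ∧ Prm (rl x 0) ∧ K (rl x 0))) :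
    VS (m := 1) (fun r => Par K fun u v => r 0 u v = true) := by
  refine vs_prime hK ?_ ?_
  · rintro x h i u hu
    rcases Nat.eq_zero_or_pos i with rfl | hi
    · exact h.irr u ((rs_one _ _ _).1 hu)
    · exact rs_ge x.1 hi _ _ hu
  · rintro x h e he hprm y hy
    have e0 : rl y 0 = fun u v => x.1 0 (e u) (e v) = true := by
      funext u v
      exact propext ((hy 0 u v).trans (rs_one _ _ _))
    have hp : Prm (fun u v => x.1 0 (e u) (e v) = true) := by
      intro X hX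
      refine hprm X fun i => ?_
      rcases Nat.eq_zero_or_pos i with rfl | hi
      · have e1 : (fun u v => rs x.1 0 (e u) (e v)) = fun u v => x.1 0 (e u) (e v) = true := by
          funext u v
          exact propext (rs_one _ _ _)
        rw [e1]
        exact hX
      · exact mdl_triv (fun u v => rs_ge x.1 hi _ _) X
    refine ⟨fun i hi u v huv => rs_ge x.1 (Nat.pos_of_ne_zero hi) _ _ ((hy i u v).1 huv), ?_, ?_⟩
    · rw [e0]
      exact hp
    · rw [e0]
      exact h.prm e he hp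

/-- one relation and unary predicates -/
abbrev S1 : Type := (ℕ → ℕ → Bool) × (ℕ → ℕ → Bool)

/-- relabelling -/
def a1 (σ : Equiv.Perm ℕ) (x : S1) : S1 :=
  (fun u v => x.1 (σ⁻¹ u) (σ⁻¹ v), fun i u => x.2 i (σ⁻¹ u))

theorem dich1 {V : (ℕ → ℕ → Prop) → Prop} (hV : VS (m := 1) (fun r => V fun u v => r 0 u v = true))
    (B : Set S1) (hB : MeasurableSet B) (hi : ∀ x ∈ B, ∀ σ, a1 σ x ∈ B)
    (h : ∀ x ∈ B, V fun u v => x.1 u v = true) : Dicho a1 B := by
  let φ : SS 1 → S1 := fun z => (z.1 0, z.2)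
  have hφ : Continuous φ :=
    ((continuous_apply (0 : Fin 1)).comp continuous_fst).prodMk continuous_snd
  have hb1 : BorelSpace S1 := by
    have h1 : BorelSpace (ℕ → ℕ → Bool) := inferInstance
    have s1 : SecondCountableTopology (ℕ → ℕ → Bool) := inferInstance
    exact Prod.borelSpace
  have hφe : ∀ σ z, φ (aS σ z) = a1 σ (φ z) := fun σ z => rfl
  let ψ : S1 → SS 1 := fun x => (fun _ => x.1, x.2)
  have hφψ : ∀ x, φ (ψ x) = x := fun x => rfl
  have hψφ : ∀ z, ψ (φ z) = z := by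
    intro z
    refine Prod.ext ?_ rfl
    funext i
    have : i = 0 := Subsingleton.elim _ _
    subst this
    rfl
  rcases hV (φ ⁻¹' B) (hφ.measurable hB) (fun z hz σ => hi _ hz σ) (fun z hz => h _ hz) with
    ⟨f, hf⟩ | ⟨g, h1, h2, h3⟩
  · left
    refine ⟨fun n => φ (f n), fun x hx => ?_⟩
    obtain ⟨n, σ, hn⟩ := hf (ψ x) hx
    exact ⟨n, σ, by rw [← hφe, ← hn, hφψ]⟩
  · right
    refine ⟨fun A => φ (g A), hφ.comp h1, fun A => h2 A, fun A A' h => h3 A A' ?_⟩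
    obtain ⟨σ, h⟩ := h
    refine ⟨σ, ?_⟩
    have h' : φ (g A') = φ (aS σ (g A)) := h
    rw [← hψφ (g A'), h', hψφ]

theorem dich_orders (B : Set S1) (hB : MeasurableSet B) (hi : ∀ x ∈ B, ∀ σ, a1 σ x ∈ B)
    (h : ∀ x ∈ B, Par SO fun u v => x.1 u v = true) : Dicho a1 B :=
  dich1 (vs_par vcu_WO) B hB hi h

theorem dich_graphs (B : Set S1) (hB : MeasurableSet B) (hi : ∀ x ∈ B, ∀ σ, a1 σ x ∈ B)
    (h : ∀ x ∈ B, Par GG fun u v => x.1 u v = true) : Dicho a1 B :=
  dich1 (vs_par vcu_WG) B hB hi h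

/-! ### sufficient conditions -/

theorem prm_parts {lt : ℕ → ℕ → Prop} (h : IvO lt) {k : ℕ} (hk : ¬ Nst lt k) : Par SO lt := by
  refine ⟨h.irr, fun e _ hp => ?_⟩
  have h1 := h.sub e
  exact ⟨h1, pcs_of h1 (tf_of_prm h1 hp) fun h2 => hk (nst_sub h2)⟩

theorem prm_inc {A lt : ℕ → ℕ → Prop} (h : IvO lt)
    (hA : ∀ u v, A u v ↔ u ≠ v ∧ ¬ lt u v ∧ ¬ lt v u) (hP : Prm A) : Prm lt := by
  have h1 := prm_cpl hP
  have h2 : cpl A = Cmp lt := by
    funext u v
    refine propext ?_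
    unfold cpl Cmp
    rw [hA]
    constructor
    · rintro ⟨h3, h4⟩
      by_contra h5
      rw [not_or] at h5
      exact h4 ⟨h3, h5⟩
    · intro h3
      refine ⟨?_, fun h4 => h3.elim h4.2.1 h4.2.2⟩
      rintro rfl
      exact h.irr u (h3.elim id id)
  rw [h2] at h1
  exact prm_of_cmp h1

theorem prm_parts_graph {A lt : ℕ → ℕ → Prop} (h : IvO lt)
    (hA : ∀ u v, A u v ↔ u ≠ v ∧ ¬ lt u v ∧ ¬ lt v u) {k : ℕ} (hk : ¬ Nst lt k) : Par GG A := by
  refine ⟨fun u hu => ((hA u u).1 hu).1 rfl, fun e he hp => ?_⟩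
  have h1 := h.sub e
  have hA' : ∀ u v, A (e u) (e v) ↔ u ≠ v ∧ ¬ lt (e u) (e v) ∧ ¬ lt (e v) (e u) := by
    intro u v
    rw [hA, he.ne_iff]
  exact ⟨fun u v => lt (e u) (e v),
    ⟨h1, pcs_of h1 (tf_of_prm h1 (prm_inc h1 hA' hp)) fun h2 => hk (nst_sub h2)⟩, hA'⟩

theorem ins_inc {lt : ℕ → ℕ → Prop} (h : IvO lt) {u v : ℕ} (h1 : Ins lt u v) :
    u ≠ v ∧ ¬ lt u v ∧ ¬ lt v u := by
  obtain ⟨⟨a, h2, h3⟩, ⟨b, h4, h5⟩⟩ := h1
  refine ⟨?_, ?_, ?_⟩
  · rintro rfl
    exact h3 h2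
  · exact fun h6 => h5 (h.spo.trans _ _ _ h6 h4)
  · exact fun h6 => h3 (h.spo.trans _ _ _ h2 h6)

theorem shallow_of_antichain {lt : ℕ → ℕ → Prop} (h : IvO lt) {k : ℕ}
    (hk : ¬ ∃ a : Fin k → ℕ, Function.Injective a ∧ ∀ i j, ¬ lt (a i) (a j)) : ¬ Nst lt k := by
  rintro ⟨a, ha⟩
  have h1 : ∀ i j, i < j → a i ≠ a j ∧ ¬ lt (a i) (a j) ∧ ¬ lt (a j) (a i) := fun i j hij =>
    ins_inc h (ha i j hij)
  refine hk ⟨a, fun i j hij => ?_, fun i j => ?_⟩
  · rcases lt_trichotomy i j with h2 | h2 | h2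
    · exact absurd hij (h1 i j h2).1
    · exact h2
    · exact absurd hij.symm (h1 j i h2).1
  · rcases lt_trichotomy i j with h2 | h2 | h2
    · exact (h1 i j h2).2.1
    · rw [h2]
      exact h.irr _
    · exact (h1 j i h2).2.2

theorem shallow_of_lengths {lt : ℕ → ℕ → Prop} (l : ℕ → ℝ) (w : ℕ → ℝ) (S : Finset ℝ)
    (hw : ∀ n, w n ∈ S) (hlt : ∀ u v, lt u v ↔ l u + w u < l v) : ¬ Nst lt (S.card + 1) := by
  rintro ⟨a, ha⟩
  have h1 : ∀ i j, i < j → w (a j) < w (a i) := by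
    intro i j hij
    obtain ⟨⟨b, h2, h3⟩, ⟨c, h4, h5⟩⟩ := ha i j hij
    rw [hlt] at h2 h3 h4 h5
    linarith
  have h2 : Function.Injective fun i => w (a i) := by
    intro i j hij
    rcases lt_trichotomy i j with h3 | h3 | h3
    · exact absurd hij (h1 i j h3).ne'
    · exact h3
    · exact absurd hij (h1 j i h3).ne
  have h3 : Finset.univ.image (fun i => w (a i)) ⊆ S := by
    intro r hr
    obtain ⟨i, -, rfl⟩ := Finset.mem_image.1 hr
    exact hw _
  have h4 := Finset.card_le_card h3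
  rw [Finset.card_image_of_injective _ h2, Finset.card_univ, Fintype.card_fin] at h4
  omega

end Pool.Agent.H87IV
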