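import Pool.Agent.H87IV.Enc
import Pool.Agent.H87IV.Cls

set_option autoImplicit false

/-! One forbidden suborder: combinatorics. -/

namespace Pool.Agent.H87IV.FS

open Pool.Agent.W889.VC Pool.Agent.H16VC Pool.Agent.H87IV

/-- interval orders in which all relations come from one element or go to one element -/
structure Slim {V : Type} (H : V → V → Prop) : Prop where
  irr : ∀ u, ¬ H u u
  fer : ∀ a b c d, H a b → H c d → H a d ∨ H c b
  two : ∃ a c, ∀ x y, H x y → x = a ∨ y = c

/-- `H` embeds -/
def Emb {V : Type} (H : V → V → Prop) (y : ℕ → ℕ → Prop) : Prop :=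
  ∃ f : V → ℕ, Function.Injective f ∧ ∀ u v, y (f u) (f v) ↔ H u v

theorem slim_of {V : Type} [Nonempty V] {H : V → V → Prop} (irr : ∀ u, ¬ H u u)
    (fer : ∀ a b c d, H a b → H c d → H a d ∨ H c b)
    (e1 : ∀ a b c d, H a b → H b c → H c d → False)
    (e2 : ∀ p q u v, H p q → H q u → H q v → u ≠ v → H u v ∨ H v u)
    (e3 : ∀ p q u v, H q p → H u q → H v q → u ≠ v → H u v ∨ H v u)
    (K : V → Prop) (k1 : ∀ u v, K u → K v → u ≠ v → H u v ∨ H v u)
    (k2 : ∀ u v, ¬ K u → ¬ K v → ¬ H u v) : ∃ a c, ∀ x y, H x y → x = a ∨ y = c := by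
  have tr : ∀ a b c, H a b → H b c → H a c := by
    intro a b c h1 h2
    rcases fer a b b c h1 h2 with h | h
    · exact h
    · exact absurd h (irr b)
  by_cases h3 : ∃ p q r, H p q ∧ H q r
  · obtain ⟨p, q, r, hpq, hqr⟩ := h3
    have hpr := tr _ _ _ hpq hqr
    refine ⟨p, r, fun u v huv => ?_⟩
    by_contra hcon
    push Not at hcon
    obtain ⟨hu, hv⟩ := hcon
    -- `q` is not below `v`
    have f1 : ¬ H q v := by
      intro h
      rcases e2 p q r v hpq hqr h (Ne.symm hv) with k | k
      · exact e1 p q r v hpq hqr k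
      · exact e1 p q v r hpq h k
    have f2 : ¬ H u q := by
      intro h
      rcases e3 r q u p hqr h hpq hu with k | k
      · exact e1 u p q r k hpq hqr
      · exact e1 p u q r k h hqr
    have f3 : H p v := by
      rcases fer p q u v hpq huv with k | k
      · exact k
      · exact absurd k f2
    have f4 : H u r := by
      rcases fer q r u v hqr huv with k | k
      · exact absurd k f1
      · exact k
    have f5 : ¬ H p u := by
      intro h
      rcases e2 p u v r h huv f4 hv with k | k
      · exact e1 p u v r h huv k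
      · exact e1 p u r v h f4 k
    have f6 : ¬ H u p := fun h => e1 u p q r h hpq hqr
    have f7 : ¬ H v r := by
      intro h
      rcases e3 r v u p h huv f3 hu with k | k
      · exact f6 k
      · exact f5 k
    have f8 : ¬ H r v := fun h => e1 p q r v hpq hqr h
    have f9 : ¬ H q u := fun h => e1 p q u v hpq h huv
    have f10 : ¬ H v q := fun h => e1 p v q r f3 h hqr
    by_cases ku : K u
    · have kp : ¬ K p := fun k => by
        rcases k1 u p ku k hu with h | h
        · exact f6 h
        · exact f5 h
      have kq : ¬ K q := fun k => by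
        have hne : u ≠ q := fun h => f1 (h ▸ huv)
        rcases k1 u q ku k hne with h | h
        · exact f2 h
        · exact f9 h
      exact k2 p q kp kq hpq
    · by_cases kv : K v
      · have kr : ¬ K r := fun k => by
          rcases k1 v r kv k hv with h | h
          · exact f7 h
          · exact f8 h
        have kq : ¬ K q := fun k => by
          have hne : v ≠ q := fun h => f2 (h ▸ huv)
          rcases k1 v q kv k hne with h | h
          · exact f10 h
          · exact f1 h
        exact k2 q r kq kr hqr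
      · exact k2 u v ku kv huv
  · have h3' : ∀ p q r, H p q → ¬ H q r := fun p q r h1 h2 => h3 ⟨p, q, r, h1, h2⟩
    by_cases hK : ∃ a c, K a ∧ K c ∧ H a c
    · obtain ⟨a, c, ka, kc, hac⟩ := hK
      refine ⟨a, c, fun x y hxy => ?_⟩
      by_cases kx : K x
      · left
        by_contra hne
        rcases k1 x a kx ka hne with h | h
        · exact h3' x a c h hac
        · exact h3' a x y h hxy
      · by_cases ky : K y
        · right
          by_contra hne
          rcases k1 y c ky kc hne with h | h
          · exact h3' x y c hxy h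
          · exact h3' a c y hac h
        · exact absurd hxy (k2 x y kx ky)
    · by_cases hK1 : ∃ k, K k
      · obtain ⟨k, hk⟩ := hK1
        have huniq : ∀ x, K x → x = k := by
          intro x hx
          by_contra hne
          rcases k1 x k hx hk hne with h | h
          · exact hK ⟨x, k, hx, hk, h⟩
          · exact hK ⟨k, x, hk, hx, h⟩
        refine ⟨k, k, fun x y hxy => ?_⟩
        by_cases kx : K x
        · exact Or.inl (huniq x kx)
        · by_cases ky : K y
          · exact Or.inr (huniq y ky)
          · exact absurd hxy (k2 x y kx ky)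
      · obtain ⟨v⟩ := (inferInstance : Nonempty V)
        refine ⟨v, v, fun x y hxy => ?_⟩
        exact absurd hxy (k2 x y (fun k => hK1 ⟨x, k⟩) (fun k => hK1 ⟨y, k⟩))

/-- an order which embeds in members of all four classes is slim -/
theorem slim_of_emb {V : Type} [Nonempty V] {H : V → V → Prop}
    (h : ∀ s t : Bool, ∃ y, Kb y ∧ Emb H (pr (enc s t y))) : Slim H := by
  obtain ⟨y1, hy1, f1, -, h1⟩ := h true true
  obtain ⟨y2, hy2, f2, hf2, h2⟩ := h true false
  obtain ⟨y3, hy3, f3, hf3, h3⟩ := h false true
  obtain ⟨y4, hy4, f4, hf4, h4⟩ := h false false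
  have hio := io_enc hy1 true true
  have irr : ∀ u, ¬ H u u := by
    intro u hu
    rw [← h1] at hu
    have := hio.irrefl (f1 u)
    rw [Bool.eq_false_iff] at this
    exact this hu
  have fer : ∀ a b c d, H a b → H c d → H a d ∨ H c b := by
    intro a b c d hab hcd
    rw [← h1] at hab hcd ⊢
    rw [← h1]
    exact hio.two _ _ _ _ hab hcd
  obtain ⟨s1, s2⟩ := split_enc hy4
  refine ⟨irr, fer, slim_of irr fer ?_ ?_ ?_ (fun v => ¬ (DI y4).P (f4 v)) ?_ ?_⟩
  · intro a b c d hab hbc hcd
    rw [← h1] at hab hbc hcd
    exact noChain4 hy1 hab hbc hcd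
  · intro p q u v hpq hqu hqv hne
    rw [← h2] at hpq hqu hqv ⊢
    rw [← h2]
    exact above_chain hy2 hpq hqu hqv (hf2.ne hne)
  · intro p q u v hpq hqu hqv hne
    rw [← h3] at hpq hqu hqv ⊢
    rw [← h3]
    exact below_chain hy3 hpq hqu hqv (hf3.ne hne)
  · intro u v hu hv hne
    rw [← h4, ← h4]
    exact s1 _ _ hu hv (hf4.ne hne)
  · intro u v hu hv
    rw [← h4]
    exact s2 _ _ (not_not.1 hu) (not_not.1 hv)

/-- completeness -/
theorem faith_of_not_slim {V : Type} [Nonempty V] {H : V → V → Prop} (hH : ¬ Slim H) :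
    Faithful BIso (fun y => IntervalOrder y ∧ ¬ Emb H (pr y)) := by
  have : ∃ s t : Bool, ∀ y, Kb y → ¬ Emb H (pr (enc s t y)) := by
    by_contra hcon
    push Not at hcon
    exact hH (slim_of_emb hcon)
  obtain ⟨s, t, hst⟩ := this
  refine (faith_enc s t).mono ?_
  rintro z ⟨y, hy, rfl⟩
  exact ⟨io_enc hy s t, hst y hy⟩

/-! ### bounded nesting -/

section nst

variable {lt : ℕ → ℕ → Prop}

/-- the data of a nested chain -/
structure Chn (lt : ℕ → ℕ → Prop) (M : ℕ) (yy aa cc : ℕ → ℕ) : Prop where
  y0 : ∀ i j, i < j → j < M → yy i ≠ yy j ∧ ¬ lt (yy i) (yy j) ∧ ¬ lt (yy j) (yy i)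
  a1 : ∀ i j, i < j → j < M → lt (aa i) (yy j)
  a2 : ∀ i j, j ≤ i → i + 1 < M → ¬ lt (aa i) (yy j)
  a3 : ∀ i j, i + 1 < M → j < M → ¬ lt (yy j) (aa i)
  c1 : ∀ i j, i < j → j < M → lt (yy j) (cc i)
  c2 : ∀ i j, j ≤ i → i + 1 < M → ¬ lt (yy j) (cc i)
  c3 : ∀ i j, i + 1 < M → j < M → ¬ lt (cc i) (yy j)
  ac : ∀ i j, i + 1 < M → j + 1 < M → lt (aa i) (cc j)

theorem chn_of (h : IvO lt) {M : ℕ} (hM : Nst lt M) (hM0 : 0 < M) :
    ∃ yy aa cc : ℕ → ℕ, Chn lt M yy aa cc := by
  classical
  obtain ⟨y, hy⟩ := hM
  let yy : ℕ → ℕ := fun i => if hi : i < M then y ⟨i, hi⟩ else 0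
  have hyy : ∀ i j, i < j → j < M → Ins lt (yy i) (yy j) := by
    intro i j hij hj
    have hi : i < M := lt_trans hij hj
    simp only [yy, hi, hj, dif_pos]
    exact hy _ _ hij
  have hA : ∀ i, ∃ a, i + 1 < M → lt a (yy (i + 1)) ∧ ¬ lt a (yy i) := by
    intro i
    by_cases hi : i + 1 < M
    · obtain ⟨⟨a, h1, h2⟩, -⟩ := hyy i (i + 1) (Nat.lt_succ_self i) hi
      exact ⟨a, fun _ => ⟨h1, h2⟩⟩
    · exact ⟨0, fun h => absurd h hi⟩
  have hC : ∀ i, ∃ c, i + 1 < M → lt (yy (i + 1)) c ∧ ¬ lt (yy i) c := by
    intro i
    by_cases hi : i + 1 < M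
    · obtain ⟨-, ⟨a, h1, h2⟩⟩ := hyy i (i + 1) (Nat.lt_succ_self i) hi
      exact ⟨a, fun _ => ⟨h1, h2⟩⟩
    · exact ⟨0, fun h => absurd h hi⟩
  choose aa haa using hA
  choose cc hcc using hC
  have tr : ∀ a b c, lt a b → lt b c → lt a c := by
    intro a b c h1 h2
    rcases h.fer a b b c h1 h2 with h' | h'
    · exact h'
    · exact absurd h' (h.irr b)
  have p1 : ∀ i j, i < j → j < M → yy i ≠ yy j ∧ ¬ lt (yy i) (yy j) ∧ ¬ lt (yy j) (yy i) :=
    fun i j hij hj => ins_inc h (hyy i j hij hj)
  have p2 : ∀ i j, i < j → j < M → lt (aa i) (yy j) := by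
    intro i j hij hj
    rcases Nat.lt_or_ge (i + 1) j with h' | h'
    · obtain ⟨⟨b, k1, k2⟩, -⟩ := hyy (i + 1) j h' hj
      rcases h.fer _ _ _ _ (haa i (lt_trans h' hj)).1 k1 with k | k
      · exact k
      · exact absurd k k2
    · have e : j = i + 1 := le_antisymm h' hij
      subst e
      exact (haa i hj).1
  have p3 : ∀ i j, j ≤ i → i + 1 < M → ¬ lt (aa i) (yy j) := by
    intro i j hij hi k
    rcases Nat.lt_or_ge j i with h' | h'
    · obtain ⟨⟨b, k1, k2⟩, -⟩ := hyy j i h' (lt_trans (Nat.lt_succ_self i) hi)
      rcases h.fer _ _ _ _ k k1 with k' | k'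
      · exact (haa i hi).2 k'
      · exact k2 k'
    · have e : j = i := le_antisymm hij h'
      subst e
      exact (haa j hi).2 k
  have q2 : ∀ i j, i < j → j < M → lt (yy j) (cc i) := by
    intro i j hij hj
    rcases Nat.lt_or_ge (i + 1) j with h' | h'
    · obtain ⟨-, ⟨b, k1, k2⟩⟩ := hyy (i + 1) j h' hj
      rcases h.fer _ _ _ _ k1 (hcc i (lt_trans h' hj)).1 with k | k
      · exact k
      · exact absurd k k2
    · have e : j = i + 1 := le_antisymm h' hij
      subst e
      exact (hcc i hj).1
  have q3 : ∀ i j, j ≤ i → i + 1 < M → ¬ lt (yy j) (cc i) := by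
    intro i j hij hi k
    rcases Nat.lt_or_ge j i with h' | h'
    · obtain ⟨-, ⟨b, k1, k2⟩⟩ := hyy j i h' (lt_trans (Nat.lt_succ_self i) hi)
      rcases h.fer _ _ _ _ k1 k with k' | k'
      · exact (hcc i hi).2 k'
      · exact k2 k'
    · have e : j = i := le_antisymm hij h'
      subst e
      exact (hcc j hi).2 k
  have inc : ∀ i j, i < M → j < M → ¬ lt (yy i) (yy j) := by
    intro i j hi hj
    rcases lt_trichotomy i j with k | k | k
    · exact (p1 i j k hj).2.1
    · rw [k]
      exact h.irr _
    · exact (p1 j i k hi).2.2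
  refine ⟨yy, aa, cc, p1, p2, p3, ?_, q2, q3, ?_, ?_⟩
  · intro i j hi hj k
    exact inc j (i + 1) hj hi (tr _ _ _ k (haa i hi).1)
  · intro i j hi hj k
    exact inc (i + 1) j hi hj (tr _ _ _ (hcc i hi).1 k)
  · intro i j hi hj
    exact tr _ _ _ (p2 i (M - 1) (by omega) (by omega)) (q2 j (M - 1) (by omega) (by omega))

/-- all relations go into `c` -/
theorem emb_into {n : ℕ} {H : Fin n → Fin n → Prop} (irr : ∀ u, ¬ H u u) (c : Fin n)
    (hc : ∀ x y, H x y → y = c) (h : IvO lt) (hN : Nst lt (3 * n)) : Emb H lt := by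
  classical
  have hn : 0 < n := c.pos
  obtain ⟨yy, aa, cc, C⟩ := chn_of h hN (by omega)
  let idx : Fin n → ℕ := fun x => if H x c then n + x.val else x.val
  have idx1 : ∀ x, H x c → idx x = n + x.val := fun x hx => if_pos hx
  have idx2 : ∀ x, ¬ H x c → idx x = x.val := fun x hx => if_neg hx
  have idxlt : ∀ x, idx x < 3 * n := by
    intro x
    by_cases hx : H x c
    · rw [idx1 x hx]; have := x.isLt; omega
    · rw [idx2 x hx]; have := x.isLt; omega
  have idxinj : ∀ x y, idx x = idx y → x = y := by
    intro x y hxy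
    apply Fin.ext
    have h1 := x.isLt
    have h2 := y.isLt
    by_cases hx : H x c <;> by_cases hy : H y c
    · rw [idx1 x hx, idx1 y hy] at hxy; omega
    · rw [idx1 x hx, idx2 y hy] at hxy; omega
    · rw [idx2 x hx, idx1 y hy] at hxy; omega
    · rw [idx2 x hx, idx2 y hy] at hxy; omega
  have inc : ∀ i j, i < 3 * n → j < 3 * n → ¬ lt (yy i) (yy j) := by
    intro i j hi hj
    rcases lt_trichotomy i j with k | k | k
    · exact (C.y0 i j k hj).2.1
    · rw [k]
      exact h.irr _
    · exact (C.y0 j i k hi).2.2
  have neyy : ∀ i j, i < 3 * n → j < 3 * n → yy i = yy j → i = j := by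
    intro i j hi hj hij
    rcases lt_trichotomy i j with k | k | k
    · exact absurd hij (C.y0 i j k hj).1
    · exact k
    · exact absurd hij.symm (C.y0 j i k hi).1
  have cne : ∀ i, i < 3 * n → cc (n - 1) ≠ yy i := by
    intro i hi e
    have k := C.c1 (n - 1) (3 * n - 1) (by omega) (by omega)
    rw [e] at k
    exact inc _ _ (by omega) hi k
  refine ⟨fun x => if x = c then cc (n - 1) else yy (idx x), ?_, ?_⟩
  · intro x y hxy
    by_cases hx : x = c <;> by_cases hy : y = c
    · rw [hx, hy]
    · simp only [if_pos hx, if_neg hy] at hxy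
      exact absurd hxy (cne _ (idxlt y))
    · simp only [if_neg hx, if_pos hy] at hxy
      exact absurd hxy.symm (cne _ (idxlt x))
    · simp only [if_neg hx, if_neg hy] at hxy
      exact idxinj _ _ (neyy _ _ (idxlt x) (idxlt y) hxy)
  · intro x y
    by_cases hx : x = c <;> by_cases hy : y = c
    · simp only [if_pos hx, if_pos hy]
      refine iff_of_false (h.irr _) ?_
      rw [hx, hy]
      exact irr c
    · simp only [if_pos hx, if_neg hy]
      exact iff_of_false (C.c3 _ _ (by omega) (idxlt y)) fun k => hy (hc _ _ k)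
    · simp only [if_neg hx, if_pos hy]
      rw [hy]
      by_cases hxc : H x c
      · refine iff_of_true ?_ hxc
        have := idx1 x hxc
        exact C.c1 _ _ (by omega) (idxlt x)
      · refine iff_of_false ?_ hxc
        have e := idx2 x hxc
        have h1 := x.isLt
        exact C.c2 _ _ (by omega) (by omega)
    · simp only [if_neg hx, if_neg hy]
      exact iff_of_false (inc _ _ (idxlt x) (idxlt y)) fun k => hy (hc _ _ k)

/-- `a < c`, and everything below `c` is above `a` -/
theorem emb_left {n : ℕ} {H : Fin n → Fin n → Prop} (irr : ∀ u, ¬ H u u)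
    (tr : ∀ a b c, H a b → H b c → H a c) (a c : Fin n) (hac : H a c)
    (hs : ∀ x y, H x y → x = a ∨ y = c) (h2 : ∀ x, H x c → x = a ∨ H a x) (h : IvO lt)
    (hN : Nst lt (3 * n)) : Emb H lt := by
  classical
  have hn : 0 < n := c.pos
  have hne : a ≠ c := fun e => irr a (e ▸ hac)
  obtain ⟨yy, aa, cc, C⟩ := chn_of h hN (by omega)
  let idx : Fin n → ℕ := fun x => if H a x then (if H x c then 2 * n + x.val else n + x.val)
    else x.val
  have idx1 : ∀ x, H a x → H x c → idx x = 2 * n + x.val := fun x hx hx' => by
    simp only [idx, if_pos hx, if_pos hx']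
  have idx2 : ∀ x, H a x → ¬ H x c → idx x = n + x.val := fun x hx hx' => by
    simp only [idx, if_pos hx, if_neg hx']
  have idx3 : ∀ x, ¬ H a x → idx x = x.val := fun x hx => if_neg hx
  have idxlt : ∀ x, idx x < 3 * n := by
    intro x
    have := x.isLt
    by_cases hx : H a x
    · by_cases hx' : H x c
      · rw [idx1 x hx hx']; omega
      · rw [idx2 x hx hx']; omega
    · rw [idx3 x hx]; omega
  have idxinj : ∀ x y, idx x = idx y → x = y := by
    intro x y hxy
    apply Fin.ext
    have h1 := x.isLt
    have h2 := y.isLt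
    have key : ∀ x : Fin n, idx x = 2 * n + x.val ∨ idx x = n + x.val ∨ idx x = x.val := by
      intro x
      by_cases hx : H a x
      · by_cases hx' : H x c
        · exact Or.inl (idx1 x hx hx')
        · exact Or.inr (Or.inl (idx2 x hx hx'))
      · exact Or.inr (Or.inr (idx3 x hx))
    rcases key x with k | k | k <;> rcases key y with k' | k' | k' <;> omega
  have inc : ∀ i j, i < 3 * n → j < 3 * n → ¬ lt (yy i) (yy j) := by
    intro i j hi hj
    rcases lt_trichotomy i j with k | k | k
    · exact (C.y0 i j k hj).2.1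
    · rw [k]
      exact h.irr _
    · exact (C.y0 j i k hi).2.2
  have neyy : ∀ i j, i < 3 * n → j < 3 * n → yy i = yy j → i = j := by
    intro i j hi hj hij
    rcases lt_trichotomy i j with k | k | k
    · exact absurd hij (C.y0 i j k hj).1
    · exact k
    · exact absurd hij.symm (C.y0 j i k hi).1
  have cne : ∀ i, i < 3 * n → cc (2 * n - 1) ≠ yy i := by
    intro i hi e
    have k := C.c1 (2 * n - 1) (3 * n - 1) (by omega) (by omega)
    rw [e] at k
    exact inc _ _ (by omega) hi k
  have ane : ∀ i, i < 3 * n → aa (n - 1) ≠ yy i := by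
    intro i hi e
    have k := C.a1 (n - 1) (3 * n - 1) (by omega) (by omega)
    rw [e] at k
    exact inc _ _ hi (by omega) k
  have alc : lt (aa (n - 1)) (cc (2 * n - 1)) := C.ac _ _ (by omega) (by omega)
  have acne : aa (n - 1) ≠ cc (2 * n - 1) := by
    intro e
    rw [e] at alc
    exact h.irr _ alc
  have nca : ¬ lt (cc (2 * n - 1)) (aa (n - 1)) := by
    intro k
    rcases h.fer _ _ _ _ k alc with k' | k' <;> exact h.irr _ k'
  have hca : c ≠ a := Ne.symm hne
  refine ⟨fun x => if x = a then aa (n - 1) else if x = c then cc (2 * n - 1) else yy (idx x),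
    ?_, ?_⟩
  · intro x y hxy
    by_cases hx : x = a <;> by_cases hy : y = a
    · rw [hx, hy]
    · by_cases hy' : y = c
      · simp only [if_pos hx, if_neg hy, if_pos hy'] at hxy
        exact absurd hxy acne
      · simp only [if_pos hx, if_neg hy, if_neg hy'] at hxy
        exact absurd hxy (ane _ (idxlt y))
    · by_cases hx' : x = c
      · simp only [if_neg hx, if_pos hx', if_pos hy] at hxy
        exact absurd hxy.symm acne
      · simp only [if_neg hx, if_neg hx', if_pos hy] at hxy
        exact absurd hxy.symm (ane _ (idxlt x))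
    · by_cases hx' : x = c <;> by_cases hy' : y = c
      · rw [hx', hy']
      · simp only [if_neg hx, if_neg hy, if_pos hx', if_neg hy'] at hxy
        exact absurd hxy (cne _ (idxlt y))
      · simp only [if_neg hx, if_neg hy, if_neg hx', if_pos hy'] at hxy
        exact absurd hxy.symm (cne _ (idxlt x))
      · simp only [if_neg hx, if_neg hy, if_neg hx', if_neg hy'] at hxy
        exact idxinj _ _ (neyy _ _ (idxlt x) (idxlt y) hxy)
  · intro x y
    have nxa : ∀ x, ¬ H x a := by
      intro x k
      rcases hs _ _ k with e | e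
      · rw [e] at k
        exact irr _ k
      · exact hne e
    have ncx : ∀ x, ¬ H c x := by
      intro x k
      rcases hs _ _ k with e | e
      · exact hca e
      · rw [e] at k
        exact irr _ k
    by_cases hx : x = a
    · by_cases hy : y = a
      · simp only [if_pos hx, if_pos hy]
        refine iff_of_false (h.irr _) ?_
        rw [hy]
        exact nxa x
      · by_cases hy' : y = c
        · simp only [if_pos hx, if_neg hy, if_pos hy']
          refine iff_of_true alc ?_
          rw [hx, hy']
          exact hac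
        · simp only [if_pos hx, if_neg hy, if_neg hy']
          rw [hx]
          by_cases hay : H a y
          · refine iff_of_true (C.a1 _ _ ?_ (idxlt y)) hay
            by_cases hyc : H y c
            · rw [idx1 y hay hyc]; omega
            · rw [idx2 y hay hyc]; omega
          · refine iff_of_false (C.a2 _ _ ?_ (by omega)) hay
            rw [idx3 y hay]
            have := y.isLt
            omega
    · by_cases hx' : x = c
      · have e : H x y ↔ False := by
          rw [hx']
          exact iff_of_false (ncx y) id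
        rw [e, iff_false]
        by_cases hy : y = a
        · simp only [if_neg hx, if_pos hx', if_pos hy]
          exact nca
        · by_cases hy' : y = c
          · simp only [if_neg hx, if_pos hx', if_neg hy, if_pos hy']
            exact h.irr _
          · simp only [if_neg hx, if_pos hx', if_neg hy, if_neg hy']
            exact C.c3 _ _ (by omega) (idxlt y)
      · by_cases hy : y = a
        · simp only [if_neg hx, if_neg hx', if_pos hy]
          refine iff_of_false (C.a3 _ _ (by omega) (idxlt x)) ?_
          rw [hy]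
          exact nxa x
        · by_cases hy' : y = c
          · simp only [if_neg hx, if_neg hx', if_neg hy, if_pos hy']
            rw [hy']
            by_cases hxc : H x c
            · refine iff_of_true (C.c1 _ _ ?_ (idxlt x)) hxc
              rcases h2 x hxc with e | e
              · exact absurd e hx
              · rw [idx1 x e hxc]; omega
            · refine iff_of_false (C.c2 _ _ ?_ (by omega)) hxc
              have := x.isLt
              by_cases hax : H a x
              · rw [idx2 x hax hxc]; omega
              · rw [idx3 x hax]; omega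
          · simp only [if_neg hx, if_neg hx', if_neg hy, if_neg hy']
            refine iff_of_false (inc _ _ (idxlt x) (idxlt y)) fun k => ?_
            rcases hs _ _ k with e | e
            · exact hx e
            · exact hy' e

theorem emb_rev {n : ℕ} {H : Fin n → Fin n → Prop} (h : Emb (fun u v => H v u) (rev lt)) :
    Emb H lt := by
  obtain ⟨f, h1, h2⟩ := h
  exact ⟨f, h1, fun u v => h2 v u⟩

/-- slim orders without `N` embed in interval orders with much nesting -/
theorem emb_of_slim {n : ℕ} {H : Fin n → Fin n → Prop} (hH : Slim H)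
    (hN : ¬ ∃ p q r s, H p q ∧ H p r ∧ H s r ∧ ¬ H s q ∧ ¬ H q r ∧ ¬ H r q ∧ ¬ H p s ∧ ¬ H s p)
    (h : IvO lt) (hM : Nst lt (3 * n)) : Emb H lt := by
  obtain ⟨a, c, hac⟩ := hH.two
  have hrev : IvO (rev lt) :=
    ⟨fun u hu => h.irr u hu, fun a b c d h1 h2 => h.fer d c b a h2 h1⟩
  have hMrev : Nst (rev lt) (3 * n) := by
    obtain ⟨y, hy⟩ := hM
    exact ⟨y, fun i j hij => (ins_rev _ _).2 (hy i j hij)⟩
  have tr : ∀ a b c, H a b → H b c → H a c := by
    intro a b c h1 h2
    rcases hH.fer a b b c h1 h2 with h | h
    · exact h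
    · exact absurd h (hH.irr b)
  by_cases hac' : H a c
  · have hne : a ≠ c := fun e => hH.irr a (e ▸ hac')
    by_cases h2 : ∀ x, H x c → x = a ∨ H a x
    · exact emb_left hH.irr tr a c hac' hac h2 h hM
    · push Not at h2
      obtain ⟨s, hs1, hs2, hs3⟩ := h2
      refine emb_rev (emb_left (H := fun u v => H v u) (fun u => hH.irr u)
        (fun a b c h1 h2 => tr _ _ _ h2 h1) c a hac' (fun x y k => (hac y x k).symm) ?_ hrev hMrev)
      intro q hq
      by_contra hcon
      push Not at hcon
      refine hN ⟨a, q, c, s, hq, hac', hs1, ?_, hcon.2, ?_, hs3, ?_⟩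
      · intro k
        rcases hac _ _ k with e | e
        · exact hs2 e
        · exact hcon.1 e
      · intro k
        rcases hac _ _ k with e | e
        · exact hne e.symm
        · rw [e] at k
          exact hH.irr _ k
      · intro k
        rcases hac _ _ k with e | e
        · exact hs2 e
        · exact hne e
  · by_cases h1 : ∃ x, H a x
    · -- nothing is below `c`
      obtain ⟨x, hx⟩ := h1
      refine emb_rev (emb_into (H := fun u v => H v u) (fun u => hH.irr u) a ?_ hrev hMrev)
      intro u v huv
      rcases hac _ _ huv with e | e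
      · exact e
      · rw [e] at huv
        rcases hH.fer _ _ _ _ hx huv with k | k
        · exact absurd k hac'
        · rcases hac _ _ k with e' | e'
          · exact e'
          · rw [e'] at hx
            exact absurd hx hac'
    · refine emb_into hH.irr c ?_ h hM
      intro u v huv
      rcases hac _ _ huv with e | e
      · rw [e] at huv
        exact absurd ⟨_, huv⟩ h1
      · exact e

end nst

end Pool.Agent.H87IV.FS
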