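import Pool.Agent.W889.VC.IO
import Pool.Agent.H16VC.Transfer

set_option autoImplicit false

/-! Four complete classes of interval orders: rows and columns are chains or antichains. -/

namespace Pool.Agent.H87IV.FS

open Pool.Agent.W889.VC Grid Pool.Agent.H16VC

/-- the relation as a proposition -/
abbrev pr (y : BinStr) : ℕ → ℕ → Prop := fun u v => y u v = true

/-- the members of the first class -/
structure Kb (y : BinStr) : Prop where
  w : WI y
  b : Base (DI y)
  r : ∃ r, (DI y).R r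
  c : ∃ c, (DI y).C c
  f : ∀ r c, (DI y).R r → (DI y).C c → ∃ p, (DI y).Fib r c p

theorem target_Kb : Target BIso Kb DI
    (fun y => WI y ∧ (∃ r, (DI y).R r) ∧ (∃ c, (DI y).C c) ∧
      ∀ r c, (DI y).R r → (DI y).C c → ∃ p, (DI y).Fib r c p) where
  symm _ _ h := h.symm
  mg := mg_DI
  mW := target_IO.mW.and ((BP.ex fun r => mg_DI.R r).and ((BP.ex fun c => mg_DI.C c).and
    (BP.all fun r => BP.all fun c => (mg_DI.R r).imp ((mg_DI.C c).imp
      (BP.ex fun p => mg_DI.Fib r c p)))))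
  inv := by
    rintro y z hyz ⟨h1, ⟨r, hr⟩, ⟨c, hc⟩, hf⟩
    obtain ⟨σ, h⟩ := target_IO.iso y z hyz
    refine ⟨target_IO.inv y z hyz h1, ⟨σ r, (h.R r).1 hr⟩, ⟨σ c, (h.C c).1 hc⟩, ?_⟩
    intro r' c' hr' hc'
    have e1 := σ.apply_symm_apply r'
    have e2 := σ.apply_symm_apply c'
    rw [← e1] at hr'
    rw [← e2] at hc'
    have k1 := (h.R _).2 hr'
    have k2 := (h.C _).2 hc'
    obtain ⟨p, hp⟩ := hf _ _ k1 k2
    have := (fib_map h k1 k2).1 hp
    rw [e1, e2] at this
    exact ⟨_, this⟩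
  iso := target_IO.iso
  iso' y z hy hz := target_IO.iso' y z hy.1 hz.1
  ex := by
    intro γ hb hr hc hf hm
    obtain ⟨y, h1, h2⟩ := target_IO.ex γ hb hr hc hf hm
    refine ⟨y, ⟨h1, ?_, ?_, ?_⟩, h2⟩
    · obtain ⟨r, hr⟩ := hr
      exact ⟨r, (h2.R r).1 hr⟩
    · obtain ⟨c, hc⟩ := hc
      exact ⟨c, (h2.C c).1 hc⟩
    · intro r c hr' hc'
      have k1 := (h2.R r).2 hr'
      have k2 := (h2.C c).2 hc'
      obtain ⟨p, hp⟩ := hf r c k1 k2
      exact ⟨p, (fib_map h2 k1 k2).1 hp⟩
  cls y hW hb := ⟨hW.1, hb, hW.2.1, hW.2.2.1, hW.2.2.2⟩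

theorem faith_Kb : Faithful BIso Kb := target_Kb.faithful

/-- maximal points -/
def Mx (z : ℕ → ℕ → Prop) (u : ℕ) : Prop := ∀ v, ¬ z u v

/-- minimal points -/
def Mn (z : ℕ → ℕ → Prop) (u : ℕ) : Prop := ∀ v, ¬ z v u

/-- the encoding, as a proposition -/
def En (s t : Bool) (y : ℕ → ℕ → Prop) (u v : ℕ) : Prop :=
  y u v ∧ ¬ (s = true ∧ Rd y v) ∧ ¬ (t = true ∧ Cd y u)

/-- the decoding, as a proposition -/
def De (s t : Bool) (z : ℕ → ℕ → Prop) (u v : ℕ) : Prop :=
  z u v ∨ (t = true ∧ Mx z u ∧ Mx z v ∧ ∃ w, z w v ∧ ¬ z w u) ∨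
    (s = true ∧ Mn z u ∧ Mn z v ∧ ∃ w, z u w ∧ ¬ z v w)

open Classical in
/-- the encoding -/
noncomputable def enc (s t : Bool) (y : BinStr) : BinStr := fun u v => decide (En s t (pr y) u v)

open Classical in
/-- the decoding -/
noncomputable def dec (s t : Bool) (y : BinStr) : BinStr := fun u v => decide (De s t (pr y) u v)

theorem pr_enc (s t : Bool) (y : BinStr) : pr (enc s t y) = En s t (pr y) := by
  funext u v
  simp [pr, enc]

theorem pr_dec (s t : Bool) (y : BinStr) : pr (dec s t y) = De s t (pr y) := by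
  funext u v
  simp [pr, dec]

theorem bin_ext {y z : BinStr} (h : pr y = pr z) : y = z := by
  funext u v
  rw [Bool.eq_iff_iff]
  exact iff_of_eq (congrFun (congrFun h u) v)

section equi

variable {σ : Equiv.Perm ℕ} {y z : ℕ → ℕ → Prop}

theorem Mx_equi (hyz : ∀ u v, y u v ↔ z (σ u) (σ v)) (u : ℕ) : Mx y u ↔ Mx z (σ u) := by
  constructor
  · intro h v
    have := h (σ.symm v)
    rwa [hyz, σ.apply_symm_apply] at this
  · intro h v
    rw [hyz]
    exact h _

theorem Mn_equi (hyz : ∀ u v, y u v ↔ z (σ u) (σ v)) (u : ℕ) : Mn y u ↔ Mn z (σ u) := by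
  constructor
  · intro h v
    have := h (σ.symm v)
    rwa [hyz, σ.apply_symm_apply] at this
  · intro h v
    rw [hyz]
    exact h _

theorem En_equi (s t : Bool) (hyz : ∀ u v, y u v ↔ z (σ u) (σ v)) (u v : ℕ) :
    En s t y u v ↔ En s t z (σ u) (σ v) := by
  unfold En
  rw [hyz, Rd_equi hyz, Cd_equi hyz]

theorem De_equi (s t : Bool) (hyz : ∀ u v, y u v ↔ z (σ u) (σ v)) (u v : ℕ) :
    De s t y u v ↔ De s t z (σ u) (σ v) := by
  unfold De
  rw [hyz, Mx_equi hyz, Mx_equi hyz, Mn_equi hyz, Mn_equi hyz]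
  have e1 : (∃ w, y w v ∧ ¬ y w u) ↔ ∃ w, z w (σ v) ∧ ¬ z w (σ u) := by
    constructor
    · rintro ⟨w, h⟩
      rw [hyz, hyz] at h
      exact ⟨_, h⟩
    · rintro ⟨w, h⟩
      refine ⟨σ.symm w, ?_⟩
      rw [hyz, hyz, σ.apply_symm_apply]
      exact h
  have e2 : (∃ w, y u w ∧ ¬ y v w) ↔ ∃ w, z (σ u) w ∧ ¬ z (σ v) w := by
    constructor
    · rintro ⟨w, h⟩
      rw [hyz, hyz] at h
      exact ⟨_, h⟩
    · rintro ⟨w, h⟩
      refine ⟨σ.symm w, ?_⟩
      rw [hyz, hyz, σ.apply_symm_apply]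
      exact h
  rw [e1, e2]

end equi

theorem enc_equi (s t : Bool) {σ : Equiv.Perm ℕ} {y z : BinStr}
    (h : ∀ m n, z (σ m) (σ n) = y m n) (m n : ℕ) : enc s t z (σ m) (σ n) = enc s t y m n := by
  have hyz : ∀ u v, pr y u v ↔ pr z (σ u) (σ v) := fun u v => by
    show y u v = true ↔ z (σ u) (σ v) = true
    rw [h]
  rw [Bool.eq_iff_iff]
  show pr (enc s t z) (σ m) (σ n) ↔ pr (enc s t y) m n
  rw [pr_enc, pr_enc]
  exact (En_equi s t hyz m n).symm

theorem dec_equi (s t : Bool) {σ : Equiv.Perm ℕ} {y z : BinStr}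
    (h : ∀ m n, z (σ m) (σ n) = y m n) (m n : ℕ) : dec s t z (σ m) (σ n) = dec s t y m n := by
  have hyz : ∀ u v, pr y u v ↔ pr z (σ u) (σ v) := fun u v => by
    show y u v = true ↔ z (σ u) (σ v) = true
    rw [h]
  rw [Bool.eq_iff_iff]
  show pr (dec s t z) (σ m) (σ n) ↔ pr (dec s t y) m n
  rw [pr_dec, pr_dec]
  exact (De_equi s t hyz m n).symm

theorem meas_of_bp {F : BinStr → BinStr} (h : ∀ u v, BP (fun y => F y u v = true)) :
    Measurable F := by
  refine measurable_pi_iff.2 fun u => measurable_pi_iff.2 fun v => ?_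
  exact measurable_to_bool (h u v)

theorem meas_enc (s t : Bool) : Measurable (enc s t) := by
  refine meas_of_bp fun u v => ?_
  have : BP (fun y : BinStr => pr y u v ∧ ¬ (s = true ∧ Rd (pr y) v) ∧
      ¬ (t = true ∧ Cd (pr y) u)) :=
    (bp_atom u v).and ((((BP.const (s = true)).and (bp_Rd bp_atom v)).not).and
      ((BP.const (t = true)).and (bp_Cd bp_atom u)).not)
  refine this.congr fun y => ?_
  show _ ↔ pr (enc s t y) u v
  rw [pr_enc]
  exact Iff.rfl

theorem meas_dec (s t : Bool) : Measurable (dec s t) := by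
  refine meas_of_bp fun u v => ?_
  have : BP (fun y : BinStr => pr y u v ∨
      (t = true ∧ (∀ w, ¬ pr y u w) ∧ (∀ w, ¬ pr y v w) ∧ ∃ w, pr y w v ∧ ¬ pr y w u) ∨
      (s = true ∧ (∀ w, ¬ pr y w u) ∧ (∀ w, ¬ pr y w v) ∧ ∃ w, pr y u w ∧ ¬ pr y v w)) :=
    (bp_atom u v).or <| ((BP.const _).and <| (BP.all fun w => (bp_atom u w).not).and <|
      (BP.all fun w => (bp_atom v w).not).and <|
        BP.ex fun w => (bp_atom w v).and (bp_atom w u).not).or <|
      (BP.const _).and <| (BP.all fun w => (bp_atom w u).not).and <|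
      (BP.all fun w => (bp_atom w v).not).and <|
        BP.ex fun w => (bp_atom u w).and (bp_atom v w).not
  refine this.congr fun y => ?_
  show _ ↔ pr (dec s t y) u v
  rw [pr_dec]
  exact Iff.rfl

/-- the facts about the members of the first class -/
theorem de_en {y : BinStr} (hy : Kb y) (s t : Bool) : De s t (En s t (pr y)) = pr y := by
  obtain ⟨⟨hr, hp⟩, hb, ⟨r0, hr0⟩, ⟨c0, hc0⟩, hf⟩ := hy
  have R_iff : ∀ u, (DI y).R u ↔ Rd (pr y) u := fun u => Iff.rfl
  have C_iff : ∀ u, (DI y).C u ↔ Cd (pr y) u := fun u => Iff.rfl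
  have pR : ∀ u v, (DI y).P u → (DI y).R v → ¬ pr y u v := hr.pr
  -- what is below a row is a row
  have belowR : ∀ u v, pr y u v → (DI y).R v → (DI y).R u := by
    intro u v huv hv
    rcases cases3 (DI y) u with h | h | h
    · exact h
    · exact absurd huv (hr.cr u v h hv)
    · exact absurd huv (hr.pr u v h hv)
  have aboveC : ∀ u v, pr y u v → (DI y).C u → (DI y).C v := by
    intro u v huv hu
    rcases cases3 (DI y) v with h | h | h
    · exact absurd huv (hr.cr u v hu h)
    · exact h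
    · exact absurd huv (hr.cp u v hu h)
  have Rn : ∀ u, (DI y).R u → ¬ (DI y).C u := hb.disj
  -- minimal points
  have hMn : s = true → ∀ u, Mn (En s t (pr y)) u ↔ (DI y).R u := by
    intro hs u
    constructor
    · intro h
      by_contra hu
      rcases cases3 (DI y) u with h' | h' | h'
      · exact hu h'
      · exact h r0 ⟨hr.rc r0 u hr0 h', fun k => hu k.2, fun k => Rn r0 hr0 k.2⟩
      · obtain ⟨r, h1, h2, -⟩ := hb.rR u h'
        obtain ⟨r1, h3, h4⟩ := hb.dR.below r h1
        exact h r1 ⟨(hr.rp r1 u r h3 h' h1 h2).2 h4, fun k => hu k.2, fun k => Rn r1 h3 k.2⟩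
    · intro hu v h
      exact h.2.1 ⟨hs, hu⟩
  have hMx : t = true → ∀ u, Mx (En s t (pr y)) u ↔ (DI y).C u := by
    intro ht u
    constructor
    · intro h
      by_contra hu
      rcases cases3 (DI y) u with h' | h' | h'
      · exact h c0 ⟨hr.rc u c0 h' hc0, fun k => Rn c0 k.2 hc0, fun k => hu k.2⟩
      · exact hu h'
      · obtain ⟨c, h1, h2, -⟩ := hb.rC u h'
        obtain ⟨c1, h3, h4⟩ := hb.dC.above c h1
        exact h c1 ⟨(hr.pc u c1 c h' h3 h1 h2).2 h4, fun k => Rn c1 k.2 h3, fun k => hu k.2⟩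
    · intro hu v h
      exact h.2.2 ⟨ht, hu⟩
  funext u v
  apply propext
  constructor
  · rintro (h | ⟨ht, h1, h2, w, h3, h4⟩ | ⟨hs, h1, h2, w, h3, h4⟩)
    · exact h.1
    · rw [hMx ht] at h1 h2
      -- w is below v, not below u
      have hw : ¬ (DI y).C w := fun k => h3.2.2 ⟨ht, k⟩
      have h5 : ¬ pr y w u := fun k => h4 ⟨k, fun k' => Rn u k'.2 h1, fun k' => hw k'.2⟩
      rcases cases3 (DI y) w with h' | h' | h'
      · exact absurd (hr.rc w u h' h1) h5
      · exact absurd h' hw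
      · obtain ⟨c, k1, k2, -⟩ := hb.rC w h'
        have k3 := (hr.pc w v c h' h2 k1 k2).1 h3.1
        have k4 : ¬ (DI y).lt c u := fun k => h5 ((hr.pc w u c h' h1 k1 k2).2 k)
        refine (hr.cc u v h1 h2).2 ?_
        by_cases e : u = c
        · rw [e]; exact k3
        · rcases hb.dC.total u c h1 k1 e with k | k
          · exact hb.dC.trans _ _ _ h1 k1 h2 k k3
          · exact absurd k k4
    · rw [hMn hs] at h1 h2
      have hw : ¬ (DI y).R w := fun k => h3.2.1 ⟨hs, k⟩
      have h5 : ¬ pr y v w := fun k => h4 ⟨k, fun k' => hw k'.2, fun k' => Rn v h2 k'.2⟩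
      rcases cases3 (DI y) w with h' | h' | h'
      · exact absurd h' hw
      · exact absurd (hr.rc v w h2 h') h5
      · obtain ⟨r, k1, k2, -⟩ := hb.rR w h'
        have k3 := (hr.rp u w r h1 h' k1 k2).1 h3.1
        have k4 : ¬ (DI y).lt v r := fun k => h5 ((hr.rp v w r h2 h' k1 k2).2 k)
        refine (hr.rr u v h1 h2).2 ?_
        by_cases e : v = r
        · rw [e]; exact k3
        · rcases hb.dR.total v r h2 k1 e with k | k
          · exact absurd k k4
          · exact hb.dR.trans _ _ _ h1 k1 h2 k3 k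
  · intro h
    by_cases h1 : s = true ∧ Rd (pr y) v
    · have hv : (DI y).R v := h1.2
      have hu := belowR u v h hv
      right; right
      refine ⟨h1.1, (hMn h1.1 u).2 hu, (hMn h1.1 v).2 hv, ?_⟩
      obtain ⟨p, k1, k2, -⟩ := hf v c0 hv hc0
      have k3 : (DI y).lt u v := (hr.rr u v hu hv).1 h
      refine ⟨p, ⟨(hr.rp u p v hu k1 hv k2).2 k3, fun k => k1.1 k.2, fun k => Rn u hu k.2⟩, ?_⟩
      intro k
      exact hb.dR.irrefl v hv ((hr.rp v p v hv k1 hv k2).1 k.1)
    · by_cases h2 : t = true ∧ Cd (pr y) u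
      · have hu : (DI y).C u := h2.2
        have hv := aboveC u v h hu
        right; left
        refine ⟨h2.1, (hMx h2.1 u).2 hu, (hMx h2.1 v).2 hv, ?_⟩
        obtain ⟨p, k1, -, k2⟩ := hf r0 u hr0 hu
        have k3 : (DI y).lt u v := (hr.cc u v hu hv).1 h
        refine ⟨p, ⟨(hr.pc p v u k1 hv hu k2).2 k3, fun k => Rn v k.2 hv, fun k => k1.2 k.2⟩, ?_⟩
        intro k
        exact hb.dC.irrefl u hu ((hr.pc p u u k1 hu hu k2).1 k.1)
      · exact Or.inl ⟨h, h1, h2⟩

theorem dec_enc {y : BinStr} (hy : Kb y) (s t : Bool) : dec s t (enc s t y) = y := by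
  apply bin_ext
  rw [pr_dec, pr_enc]
  exact de_en hy s t

/-- the four complete classes -/
theorem faith_enc (s t : Bool) : Faithful BIso (fun z => ∃ y, Kb y ∧ z = enc s t y) := by
  refine faithful_transfer (E' := BIso) (E := BIso) (K' := Kb) (enc s t) (dec s t) (meas_dec s t)
    ?_ (fun y hy => dec_enc hy s t) (fun y z h => h.symm) ?_ ?_ ?_ (fun y hy => ⟨y, hy, rfl⟩) faith_Kb
  · have : BP (fun y : BinStr => ∀ u v, (enc s t (dec s t y) u v = true ↔ y u v = true)) := by
      refine BP.all fun u => BP.all fun v => BP.iff ?_ (bp_atom u v)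
      exact (meas_enc s t).comp (meas_dec s t) (bp_atom u v)
    refine this.congr fun y => ?_
    constructor
    · intro h
      funext u v
      rw [Bool.eq_iff_iff]
      exact h u v
    · intro h u v
      rw [h]
  · rintro y z ⟨σ, h⟩
    exact ⟨σ, dec_equi s t h⟩
  · rintro y z ⟨σ, h⟩
    exact ⟨σ, enc_equi s t h⟩
  · rintro y z ⟨σ, h⟩ hy
    have h1 := enc_equi s t (dec_equi s t h)
    rw [hy] at h1
    funext u v
    have e1 := σ.apply_symm_apply u
    have e2 := σ.apply_symm_apply v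
    rw [← e1, ← e2, h1, h]

/-! ### properties -/

theorem io_enc {y : BinStr} (hy : Kb y) (s t : Bool) : IntervalOrder (enc s t y) := by
  have h := io_cls hy.b hy.w.1 hy.w.2
  have e : ∀ u v, enc s t y u v = true ↔ En s t (pr y) u v := fun u v => by
    have := congrFun (congrFun (pr_enc s t y) u) v
    exact iff_of_eq this
  refine ⟨fun m => ?_, fun a b c d hab hcd => ?_⟩
  · rw [Bool.eq_false_iff, ne_eq, e]
    intro k
    have := h.irrefl m
    rw [Bool.eq_false_iff] at this
    exact this k.1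
  · rw [e] at hab hcd ⊢
    rw [e]
    rcases h.two a b c d hab.1 hcd.1 with k | k
    · exact Or.inl ⟨k, hcd.2.1, hab.2.2⟩
    · exact Or.inr ⟨k, hab.2.1, hcd.2.2⟩

/-- rows and columns antichains: no chain with four points -/
theorem noChain4 {y : BinStr} (hy : Kb y) {a b c d : ℕ} (h1 : pr (enc true true y) a b)
    (h2 : pr (enc true true y) b c) (h3 : pr (enc true true y) c d) : False := by
  rw [pr_enc] at h1 h2 h3
  have hb : (DI y).P b := ⟨fun k => h1.2.1 ⟨rfl, k⟩, fun k => h2.2.2 ⟨rfl, k⟩⟩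
  have hc : (DI y).P c := ⟨fun k => h2.2.1 ⟨rfl, k⟩, fun k => h3.2.2 ⟨rfl, k⟩⟩
  exact hy.w.2 b c hb hc h2.1

/-- rows antichain, columns chain: the elements above a nonminimal element are a chain -/
theorem above_chain {y : BinStr} (hy : Kb y) {p q u v : ℕ} (h1 : pr (enc true false y) p q)
    (h2 : pr (enc true false y) q u) (h3 : pr (enc true false y) q v) (hne : u ≠ v) :
    pr (enc true false y) u v ∨ pr (enc true false y) v u := by
  rw [pr_enc] at h1 h2 h3 ⊢
  have hq : ¬ (DI y).R q := fun k => h1.2.1 ⟨rfl, k⟩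
  have key : ∀ w, pr y q w → (DI y).C w := by
    intro w hw
    rcases cases3 (DI y) w with h | h | h
    · rcases cases3 (DI y) q with h' | h' | h'
      · exact absurd h' hq
      · exact absurd hw (hy.w.1.cr q w h' h)
      · exact absurd hw (hy.w.1.pr q w h' h)
    · exact h
    · rcases cases3 (DI y) q with h' | h' | h'
      · exact absurd h' hq
      · exact absurd hw (hy.w.1.cp q w h' h)
      · exact absurd hw (hy.w.2 q w h' h)
  have hu := key u h2.1
  have hv := key v h3.1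
  rcases hy.b.dC.total u v hu hv hne with k | k
  · left
    exact ⟨(hy.w.1.cc u v hu hv).2 k, fun k' => hy.b.disj v k'.2 hv, fun k' => by simp at k'⟩
  · right
    exact ⟨(hy.w.1.cc v u hv hu).2 k, fun k' => hy.b.disj u k'.2 hu, fun k' => by simp at k'⟩

/-- rows chain, columns antichain: the elements below a nonmaximal element are a chain -/
theorem below_chain {y : BinStr} (hy : Kb y) {p q u v : ℕ} (h1 : pr (enc false true y) q p)
    (h2 : pr (enc false true y) u q) (h3 : pr (enc false true y) v q) (hne : u ≠ v) :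
    pr (enc false true y) u v ∨ pr (enc false true y) v u := by
  rw [pr_enc] at h1 h2 h3 ⊢
  have hq : ¬ (DI y).C q := fun k => h1.2.2 ⟨rfl, k⟩
  have key : ∀ w, pr y w q → (DI y).R w := by
    intro w hw
    rcases cases3 (DI y) w with h | h | h
    · exact h
    · rcases cases3 (DI y) q with h' | h' | h'
      · exact absurd hw (hy.w.1.cr w q h h')
      · exact absurd h' hq
      · exact absurd hw (hy.w.1.cp w q h h')
    · rcases cases3 (DI y) q with h' | h' | h'
      · exact absurd hw (hy.w.1.pr w q h h')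
      · exact absurd h' hq
      · exact absurd hw (hy.w.2 w q h h')
  have hu := key u h2.1
  have hv := key v h3.1
  rcases hy.b.dR.total u v hu hv hne with k | k
  · left
    exact ⟨(hy.w.1.rr u v hu hv).2 k, fun k' => by simp at k', fun k' => hy.b.disj u hu k'.2⟩
  · right
    exact ⟨(hy.w.1.rr v u hv hu).2 k, fun k' => by simp at k', fun k' => hy.b.disj v hv k'.2⟩

/-- rows and columns chains: the order is the union of a chain and an antichain -/
theorem split_enc {y : BinStr} (hy : Kb y) :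
    (∀ u v, ¬ (DI y).P u → ¬ (DI y).P v → u ≠ v →
      pr (enc false false y) u v ∨ pr (enc false false y) v u) ∧
    ∀ u v, (DI y).P u → (DI y).P v → ¬ pr (enc false false y) u v := by
  have e : pr (enc false false y) = pr y := by
    rw [pr_enc]
    funext u v
    simp [En]
  rw [e]
  refine ⟨fun u v hu hv hne => ?_, fun u v hu hv => hy.w.2 u v hu hv⟩
  rcases cases3 (DI y) u with h | h | h
  · rcases cases3 (DI y) v with h' | h' | h'
    · rcases hy.b.dR.total u v h h' hne with k | k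
      · exact Or.inl ((hy.w.1.rr u v h h').2 k)
      · exact Or.inr ((hy.w.1.rr v u h' h).2 k)
    · exact Or.inl (hy.w.1.rc u v h h')
    · exact absurd h' hv
  · rcases cases3 (DI y) v with h' | h' | h'
    · exact Or.inr (hy.w.1.rc v u h' h)
    · rcases hy.b.dC.total u v h h' hne with k | k
      · exact Or.inl ((hy.w.1.cc u v h h').2 k)
      · exact Or.inr ((hy.w.1.cc v u h' h).2 k)
    · exact absurd h' hv
  · exact absurd h hu

end Pool.Agent.H87IV.FS
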