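import Pool.Agent.W878.VC.Kel

set_option autoImplicit false

/-! Interval orders: the orders of the left and of the right endpoints. -/

namespace Pool.Agent.H87IV

open Pool.Agent.W878.VC

/-- interval orders -/
structure IvO (lt : ℕ → ℕ → Prop) : Prop where
  irr : ∀ u, ¬ lt u u
  fer : ∀ a b c d, lt a b → lt c d → lt a d ∨ lt c b

/-- the left endpoint of `u` is smaller than the one of `v` -/
def ll (lt : ℕ → ℕ → Prop) (u v : ℕ) : Prop := ∃ a, lt a v ∧ ¬ lt a u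

/-- the right endpoint of `u` is smaller than the one of `v` -/
def rr (lt : ℕ → ℕ → Prop) (u v : ℕ) : Prop := ∃ b, lt u b ∧ ¬ lt v b

/-- the interval of `v` is inside the interval of `u` -/
def Ins (lt : ℕ → ℕ → Prop) (u v : ℕ) : Prop := ll lt u v ∧ rr lt v u

/-- the order of the left endpoints -/
def L1 (lt : ℕ → ℕ → Prop) (u v : ℕ) : Prop := ll lt u v ∨ (¬ ll lt v u ∧ rr lt u v)

/-- the order of the right endpoints -/
def L2 (lt : ℕ → ℕ → Prop) (u v : ℕ) : Prop := rr lt u v ∨ (¬ rr lt v u ∧ ll lt u v)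

variable {lt : ℕ → ℕ → Prop}

theorem IvO.spo (h : IvO lt) : SPO lt :=
  ⟨h.irr, fun u v w h1 h2 => (h.fer u v v w h1 h2).elim id fun h3 => absurd h3 (h.irr v)⟩

/-- the converse -/
def rev (lt : ℕ → ℕ → Prop) (u v : ℕ) : Prop := lt v u

theorem IvO.rev (h : IvO lt) : IvO (rev lt) :=
  ⟨h.irr, fun _ _ _ _ h1 h2 => h.fer _ _ _ _ h2 h1⟩

theorem ll_rev (u v : ℕ) : ll (rev lt) u v ↔ rr lt v u := Iff.rfl

theorem rr_rev (u v : ℕ) : rr (rev lt) u v ↔ ll lt v u := Iff.rfl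

theorem ins_rev (u v : ℕ) : Ins (rev lt) u v ↔ Ins lt u v :=
  ⟨fun h => ⟨h.2, h.1⟩, fun h => ⟨h.2, h.1⟩⟩

theorem ll_asymm (h : IvO lt) {u v : ℕ} (h1 : ll lt u v) (h2 : ll lt v u) : False := by
  obtain ⟨a, h3, h4⟩ := h1
  obtain ⟨b, h5, h6⟩ := h2
  exact (h.fer a v b u h3 h5).elim h4 h6

theorem rr_asymm (h : IvO lt) {u v : ℕ} (h1 : rr lt u v) (h2 : rr lt v u) : False := by
  obtain ⟨a, h3, h4⟩ := h1
  obtain ⟨b, h5, h6⟩ := h2
  exact (h.fer u a v b h3 h5).elim h6 h4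

theorem ll_neg {u v w : ℕ} (h1 : ll lt u w) : ll lt u v ∨ ll lt v w := by
  obtain ⟨a, h3, h4⟩ := h1
  by_cases h5 : lt a v
  · exact Or.inl ⟨a, h5, h4⟩
  · exact Or.inr ⟨a, h3, h5⟩

theorem rr_neg {u v w : ℕ} (h1 : rr lt u w) : rr lt u v ∨ rr lt v w := by
  obtain ⟨a, h3, h4⟩ := h1
  by_cases h5 : lt v a
  · exact Or.inr ⟨a, h5, h4⟩
  · exact Or.inl ⟨a, h3, h5⟩

theorem ll_trans (h : IvO lt) {u v w : ℕ} (h1 : ll lt u v) (h2 : ll lt v w) : ll lt u w :=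
  (ll_neg (v := w) h1).elim id fun h3 => (ll_asymm h h2 h3).elim

theorem rr_trans (h : IvO lt) {u v w : ℕ} (h1 : rr lt u v) (h2 : rr lt v w) : rr lt u w :=
  (rr_neg (v := w) h1).elim id fun h3 => (rr_asymm h h2 h3).elim

/-- no two points have the same neighbours -/
def TF (lt : ℕ → ℕ → Prop) : Prop := ∀ u v, u ≠ v → ll lt u v ∨ ll lt v u ∨ rr lt u v ∨ rr lt v u

theorem slo1 (h : IvO lt) (ht : TF lt) : SLO (L1 lt) := by
  refine ⟨⟨?_, ?_⟩, ?_⟩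
  · rintro u (h1 | h1)
    · exact ll_asymm h h1 h1
    · exact rr_asymm h h1.2 h1.2
  · rintro u v w (h1 | ⟨h1, h1'⟩) (h2 | ⟨h2, h2'⟩)
    · exact Or.inl (ll_trans h h1 h2)
    · exact Or.inl ((ll_neg (v := w) h1).elim id fun h3 => absurd h3 h2)
    · exact Or.inl ((ll_neg (v := u) h2).elim (fun h3 => absurd h3 h1) id)
    · exact Or.inr ⟨fun h3 => (ll_neg (v := v) h3).elim h2 h1, rr_trans h h1' h2'⟩
  · intro u v huv
    by_cases h1 : ll lt u v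
    · exact Or.inl (Or.inl h1)
    · by_cases h2 : ll lt v u
      · exact Or.inr (Or.inl h2)
      · rcases ht u v huv with h3 | h3 | h3 | h3
        · exact absurd h3 h1
        · exact absurd h3 h2
        · exact Or.inl (Or.inr ⟨h2, h3⟩)
        · exact Or.inr (Or.inr ⟨h1, h3⟩)

theorem slo2 (h : IvO lt) (ht : TF lt) : SLO (L2 lt) := by
  refine ⟨⟨?_, ?_⟩, ?_⟩
  · rintro u (h1 | h1)
    · exact rr_asymm h h1 h1
    · exact ll_asymm h h1.2 h1.2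
  · rintro u v w (h1 | ⟨h1, h1'⟩) (h2 | ⟨h2, h2'⟩)
    · exact Or.inl (rr_trans h h1 h2)
    · exact Or.inl ((rr_neg (v := w) h1).elim id fun h3 => absurd h3 h2)
    · exact Or.inl ((rr_neg (v := u) h2).elim (fun h3 => absurd h3 h1) id)
    · exact Or.inr ⟨fun h3 => (rr_neg (v := v) h3).elim h2 h1, ll_trans h h1' h2'⟩
  · intro u v huv
    by_cases h1 : rr lt u v
    · exact Or.inl (Or.inl h1)
    · by_cases h2 : rr lt v u
      · exact Or.inr (Or.inl h2)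
      · rcases ht u v huv with h3 | h3 | h3 | h3
        · exact Or.inl (Or.inr ⟨h2, h3⟩)
        · exact Or.inr (Or.inr ⟨h1, h3⟩)
        · exact absurd h3 h1
        · exact absurd h3 h2

/-- the orders disagree only on nested pairs -/
theorem opp (h : IvO lt) {u v : ℕ} (h1 : L1 lt u v) (h2 : L2 lt v u) : Ins lt u v := by
  rcases h1 with h1 | ⟨h1, h1'⟩
  · rcases h2 with h2 | ⟨h2, h2'⟩
    · exact ⟨h1, h2⟩
    · exact (ll_asymm h h1 h2').elim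
  · rcases h2 with h2 | ⟨h2, h2'⟩
    · exact (rr_asymm h h1' h2).elim
    · exact absurd h2' h1

theorem mono1 {u u' v : ℕ} (h : IvO lt) (h1 : L2 lt u u') (h2 : lt u' v) : lt u v := by
  by_contra h3
  rcases h1 with h1 | h1
  · exact rr_asymm h h1 ⟨v, h2, h3⟩
  · exact h1.1 ⟨v, h2, h3⟩

theorem mono2 {u v v' : ℕ} (h : IvO lt) (h1 : L1 lt v v') (h2 : lt u v) : lt u v' := by
  by_contra h3
  rcases h1 with h1 | h1
  · exact ll_asymm h h1 ⟨u, h2, h3⟩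
  · exact h1.1 ⟨u, h2, h3⟩

/-- prime orders have no twins -/
theorem tf_of_prm (h : IvO lt) (hp : Prm lt) : TF lt := by
  intro u v huv
  by_contra hc
  push Not at hc
  obtain ⟨h1, h2, h3, h4⟩ := hc
  have e1 : ∀ a, lt a u ↔ lt a v := fun a =>
    ⟨fun h5 => by_contra fun h6 => h2 ⟨a, h5, h6⟩, fun h5 => by_contra fun h6 => h1 ⟨a, h5, h6⟩⟩
  have e2 : ∀ a, lt u a ↔ lt v a := fun a =>
    ⟨fun h5 => by_contra fun h6 => h3 ⟨a, h5, h6⟩, fun h5 => by_contra fun h6 => h4 ⟨a, h5, h6⟩⟩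
  rcases hp {u, v} (by
    intro s hs t ht w _
    have e3 : ∀ s ∈ ({u, v} : Set ℕ), (lt s w ↔ lt u w) ∧ (lt w s ↔ lt w u) := by
      rintro s (rfl | rfl)
      · exact ⟨Iff.rfl, Iff.rfl⟩
      · exact ⟨(e2 w).symm, (e1 w).symm⟩
    exact ⟨(e3 s hs).1.trans (e3 t ht).1.symm, (e3 s hs).2.trans (e3 t ht).2.symm⟩) with h5 | h5
  · exact huv (h5 (Or.inl rfl) (Or.inr rfl))
  · have hu : ∀ w : ℕ, w = u ∨ w = v := fun w => by
      have : w ∈ ({u, v} : Set ℕ) := by rw [h5]; exact Set.mem_univ w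
      exact this
    have := hu 0
    have := hu 1
    have := hu 2
    omega

/-- there are `k` nested intervals -/
def Nst (lt : ℕ → ℕ → Prop) (k : ℕ) : Prop := ∃ a : Fin k → ℕ, ∀ i j, i < j → Ins lt (a i) (a j)

theorem nst_rev {k : ℕ} (h : Nst (rev lt) k) : Nst lt k := by
  obtain ⟨a, h⟩ := h
  exact ⟨a, fun i j hij => (ins_rev _ _).1 (h i j hij)⟩

/-- finitely many pieces, each without nested pairs or totally nested -/
def Pcs (lt : ℕ → ℕ → Prop) : Prop := ∃ (s : ℕ) (c : ℕ → Fin s), ∀ t,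
  (∀ u v, c u = t → c v = t → ¬ Ins lt u v) ∨
  (∀ u v, c u = t → c v = t → u ≠ v → Ins lt u v ∨ Ins lt v u)

theorem pcs_rev (h : Pcs lt) : Pcs (rev lt) := by
  obtain ⟨s, c, h⟩ := h
  refine ⟨s, c, fun t => (h t).imp (fun h1 u v hu hv h2 => h1 u v hu hv ((ins_rev _ _).1 h2))
    fun h1 u v hu hv huv => ?_⟩
  rw [ins_rev, ins_rev]
  exact h1 u v hu hv huv

/-- nesting in suborders -/
theorem ins_sub {e : ℕ → ℕ} {u v : ℕ} (h : Ins (fun u v => lt (e u) (e v)) u v) :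
    Ins lt (e u) (e v) := by
  obtain ⟨⟨a, h1, h2⟩, ⟨b, h3, h4⟩⟩ := h
  exact ⟨⟨e a, h1, h2⟩, ⟨e b, h3, h4⟩⟩

theorem nst_sub {e : ℕ → ℕ} {k : ℕ} (h : Nst (fun u v => lt (e u) (e v)) k) : Nst lt k := by
  obtain ⟨a, h⟩ := h
  exact ⟨fun i => e (a i), fun i j hij => ins_sub (h i j hij)⟩

theorem IvO.sub (h : IvO lt) (e : ℕ → ℕ) : IvO (fun u v => lt (e u) (e v)) :=
  ⟨fun _ => h.irr _, fun _ _ _ _ => h.fer _ _ _ _⟩

end Pool.Agent.H87IV
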